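import Mathlib
import Pool.Agent.H12.PAR.Fam

/-!
Pairs of pure cubics. Let `K K' = n^3`, `l κ = n`, `D = n l K > 0` not a square. Then there are
integers `a, b, c, d` of any size with
`|K|^3 (c^3+K') (d^3+K') = |n l|^3 (a^3+K) (b^3+K)`.
-/

set_option autoImplicit false

namespace Pool.Agent.H26.PT

open Pool.Agent.H12.PAR

/-- solutions of the Pell equation with `U` odd and `V` even and large -/
theorem pell_large {D : ℤ} (hD : 0 < D) (hsq : ¬ IsSquare D) (B : ℕ) :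
    ∃ U V : ℤ, U ^ 2 - D * V ^ 2 = 1 ∧ Odd U ∧ Even V ∧ 1 ≤ U ∧ (B : ℤ) + 1 ≤ V := by
  induction B with
  | zero =>
    obtain ⟨x, y, hxy, hy⟩ := Pell.exists_of_not_isSquare hD hsq
    have hx : x ≠ 0 := by
      rintro rfl
      have : 0 ≤ D * y ^ 2 := by positivity
      nlinarith
    refine ⟨x ^ 2 + D * y ^ 2, 2 * (|x| * |y|), ?_, ?_, ⟨|x| * |y|, by ring⟩, ?_, ?_⟩
    · have h1 : (2 * (|x| * |y|)) ^ 2 = 4 * (x ^ 2 * y ^ 2) := by
        rw [mul_pow, mul_pow, sq_abs, sq_abs]; ring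
      rw [h1]
      have h2 : (x ^ 2 + D * y ^ 2) ^ 2 - D * (4 * (x ^ 2 * y ^ 2)) = (x ^ 2 - D * y ^ 2) ^ 2 := by
        ring
      rw [h2, hxy]; norm_num
    · exact ⟨D * y ^ 2, by linarith⟩
    · have : 0 ≤ D * y ^ 2 := by positivity
      linarith
    · have h1 : 1 ≤ |x| := Int.one_le_abs hx
      have h2 : 1 ≤ |y| := Int.one_le_abs hy
      have h3 : 1 ≤ |x| * |y| := by nlinarith
      push_cast
      linarith
  | succ B ih =>
    obtain ⟨U, V, h, hU, hV, hU1, hV1⟩ := ih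
    refine ⟨2 * U ^ 2 - 1, 2 * (U * V), ?_, ⟨U ^ 2 - 1, by ring⟩, ⟨U * V, by ring⟩, ?_, ?_⟩
    · have h1 : D * V ^ 2 = U ^ 2 - 1 := by linarith
      have h2 : (2 * U ^ 2 - 1) ^ 2 - D * (2 * (U * V)) ^ 2 =
          (2 * U ^ 2 - 1) ^ 2 - 4 * U ^ 2 * (D * V ^ 2) := by ring
      rw [h2, h1]; ring
    · nlinarith
    · have hV0 : 0 < V := by
        have : (0 : ℤ) ≤ B := Int.natCast_nonneg _
        linarith
      have h3 : V ≤ U * V := by nlinarith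
      have : (0 : ℤ) ≤ B := Int.natCast_nonneg _
      push_cast
      linarith

/-- the norm identity -/
theorem norm_id {K K' n l κ a b c d s₁ s₂ : ℤ} (hK : K ≠ 0) (hl : l ≠ 0) (h : K * K' = n ^ 3)
    (hlk : l * κ = n) (hs : s₂ * (n * l) = s₁ * K) (h1 : a + b = κ) (h2 : c + d = l)
    (h3 : s₂ * (c * d) = s₁ * (a * b)) :
    s₂ ^ 3 * ((c ^ 3 + K') * (d ^ 3 + K')) = s₁ ^ 3 * ((a ^ 3 + K) * (b ^ 3 + K)) := by
  have e1 : s₂ ^ 2 * K' * l = s₁ ^ 2 * K * κ := by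
    apply mul_left_cancel₀ (mul_ne_zero hK hl)
    calc K * l * (s₂ ^ 2 * K' * l) = s₂ ^ 2 * (K * K') * l ^ 2 := by ring
      _ = n * (s₂ * (n * l)) ^ 2 := by rw [h]; ring
      _ = n * (s₁ * K) ^ 2 := by rw [hs]
      _ = (l * κ) * (s₁ * K) ^ 2 := by rw [hlk]
      _ = K * l * (s₁ ^ 2 * K * κ) := by ring
  have e2 : s₂ ^ 3 * K' * l ^ 3 = s₁ ^ 3 * K ^ 2 := by
    apply mul_left_cancel₀ hK
    calc K * (s₂ ^ 3 * K' * l ^ 3) = s₂ ^ 3 * (K * K') * l ^ 3 := by ring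
      _ = (s₂ * (n * l)) ^ 3 := by rw [h]; ring
      _ = (s₁ * K) ^ 3 := by rw [hs]
      _ = K * (s₁ ^ 3 * K ^ 2) := by ring
  have e3 : s₂ ^ 3 * K' ^ 2 = s₁ ^ 3 * K * κ ^ 3 := by
    apply mul_left_cancel₀ (mul_ne_zero (pow_ne_zero 2 hK) (pow_ne_zero 3 hl))
    calc K ^ 2 * l ^ 3 * (s₂ ^ 3 * K' ^ 2) = s₂ ^ 3 * (K * K') ^ 2 * l ^ 3 := by ring
      _ = n ^ 3 * (s₂ * (n * l)) ^ 3 := by rw [h]; ring
      _ = n ^ 3 * (s₁ * K) ^ 3 := by rw [hs]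
      _ = (l * κ) ^ 3 * (s₁ * K) ^ 3 := by rw [hlk]
      _ = K ^ 2 * l ^ 3 * (s₁ ^ 3 * K * κ ^ 3) := by ring
  have e4 : (s₂ * (c * d)) ^ 3 = (s₁ * (a * b)) ^ 3 := by rw [h3]
  have l1 : (c ^ 3 + K') * (d ^ 3 + K') =
      (c * d) ^ 3 + K' * (l ^ 3 - 3 * l * (c * d)) + K' ^ 2 := by
    rw [← h2]; ring
  have l2 : (a ^ 3 + K) * (b ^ 3 + K) =
      (a * b) ^ 3 + K * (κ ^ 3 - 3 * κ * (a * b)) + K ^ 2 := by
    rw [← h1]; ring
  rw [l1, l2]
  have e5 : s₂ ^ 3 * (K' * l * (c * d)) = s₁ ^ 3 * (K * κ * (a * b)) := by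
    calc s₂ ^ 3 * (K' * l * (c * d)) = (s₂ ^ 2 * K' * l) * (s₂ * (c * d)) := by ring
      _ = (s₁ ^ 2 * K * κ) * (s₁ * (a * b)) := by rw [e1, h3]
      _ = _ := by ring
  linear_combination e4 + e2 - 3 * e5 + e3

/-- large integral points on the conic -/
theorem conic {l κ s₁ s₂ : ℤ} (hl : l ≠ 0) (hk : κ ≠ 0) (h1 : 0 < s₁) (h2 : 0 < s₂)
    (hsq : ¬ IsSquare (s₁ * s₂)) (B : ℕ) :
    ∃ g e : ℤ, s₂ * g ^ 2 - s₁ * e ^ 2 = s₂ * l ^ 2 - s₁ * κ ^ 2 ∧ Even (g + l) ∧ Even (e + κ) ∧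
      (B : ℤ) < |g| ∧ (B : ℤ) < |e| := by
  -- the constant is not zero
  have hΔ : s₂ * l ^ 2 - s₁ * κ ^ 2 ≠ 0 := by
    intro h0
    apply hsq
    have e1 : (s₂ * l) ^ 2 = (s₁ * s₂) * κ ^ 2 := by
      calc (s₂ * l) ^ 2 = s₂ * (s₂ * l ^ 2) := by ring
        _ = s₂ * (s₁ * κ ^ 2) := by rw [sub_eq_zero.1 h0]
        _ = _ := by ring
    have e2 : κ ^ 2 ∣ (s₂ * l) ^ 2 := ⟨s₁ * s₂, by rw [e1]; ring⟩
    obtain ⟨t, ht⟩ := (Int.pow_dvd_pow_iff two_ne_zero).1 e2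
    refine ⟨t, ?_⟩
    apply mul_right_cancel₀ (pow_ne_zero 2 hk)
    rw [← e1, ht]; ring
  set Δ : ℤ := s₂ * l ^ 2 - s₁ * κ ^ 2 with hΔdef
  have hΔ1 : 1 ≤ |Δ| := Int.one_le_abs hΔ
  have hl1 : 0 ≤ |l| := abs_nonneg _
  have hk1 : 0 ≤ |κ| := abs_nonneg _
  obtain ⟨M, hM⟩ : ∃ M : ℕ, (M : ℤ) = (B + 1) * (|l| * (s₂ + 1) + |κ| * (s₁ + 1)) + (|κ| + |l|) * |Δ| := by
    refine ⟨((B + 1) * (|l| * (s₂ + 1) + |κ| * (s₁ + 1)) + (|κ| + |l|) * |Δ|).toNat, ?_⟩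
    rw [Int.toNat_of_nonneg]
    positivity
  obtain ⟨U, V, hUV, hU, hV, hU1, hVM⟩ := pell_large (mul_pos h1 h2) hsq M
  refine ⟨U * l + s₁ * V * κ, U * κ + s₂ * V * l, ?_, ?_, ?_, ?_⟩
  · have : s₂ * (U * l + s₁ * V * κ) ^ 2 - s₁ * (U * κ + s₂ * V * l) ^ 2 =
        (U ^ 2 - s₁ * s₂ * V ^ 2) * (s₂ * l ^ 2 - s₁ * κ ^ 2) := by ring
    rw [this, hUV, one_mul]
  · obtain ⟨u, rfl⟩ := hU
    obtain ⟨v, rfl⟩ := hV
    exact ⟨u * l + l + s₁ * v * κ, by ring⟩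
  · obtain ⟨u, rfl⟩ := hU
    obtain ⟨v, rfl⟩ := hV
    exact ⟨u * κ + κ + s₂ * v * l, by ring⟩
  · set g : ℤ := U * l + s₁ * V * κ with hg
    set e : ℤ := U * κ + s₂ * V * l with he
    have hN : s₂ * g ^ 2 - s₁ * e ^ 2 = Δ := by
      have : s₂ * g ^ 2 - s₁ * e ^ 2 = (U ^ 2 - s₁ * s₂ * V ^ 2) * (s₂ * l ^ 2 - s₁ * κ ^ 2) := by
        rw [hg, he]; ring
      rw [this, hUV, one_mul]
    have hlin : l * e - κ * g = V * Δ := by rw [hg, he, hΔdef]; ring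
    have hV0 : 0 < V := by
      have : (0 : ℤ) ≤ M := Int.natCast_nonneg _
      linarith
    -- `V ≤ |l| |e| + |κ| |g|`
    have hVle : V ≤ |l| * |e| + |κ| * |g| := by
      calc V ≤ V * |Δ| := by nlinarith
        _ = |V * Δ| := by rw [abs_mul, abs_of_pos hV0]
        _ = |l * e - κ * g| := by rw [hlin]
        _ ≤ |l * e| + |κ * g| := abs_sub _ _
        _ = _ := by rw [abs_mul, abs_mul]
    have he0 : 0 ≤ |e| := abs_nonneg _
    have hg0 : 0 ≤ |g| := abs_nonneg _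
    have hge : |g| ≤ s₁ * |e| + |Δ| := by
      apply abs_le_of_sq_le_sq' .. |> fun h => abs_le.2 h
      · have a1 : g ^ 2 ≤ s₂ * g ^ 2 := by nlinarith [sq_nonneg g]
        have a2 : s₂ * g ^ 2 = s₁ * e ^ 2 + Δ := by linarith
        have a3 : s₁ * e ^ 2 ≤ (s₁ * |e|) ^ 2 := by
          rw [mul_pow, sq_abs]
          exact mul_le_mul_of_nonneg_right (by nlinarith) (sq_nonneg e)
        have a4 : Δ ≤ |Δ| ^ 2 := by
          have := le_abs_self Δ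
          nlinarith
        have a5 : 0 ≤ s₁ * |e| * |Δ| := by positivity
        nlinarith
      · positivity
    have heg : |e| ≤ s₂ * |g| + |Δ| := by
      apply abs_le_of_sq_le_sq' .. |> fun h => abs_le.2 h
      · have a1 : e ^ 2 ≤ s₁ * e ^ 2 := by nlinarith [sq_nonneg e]
        have a2 : s₁ * e ^ 2 = s₂ * g ^ 2 - Δ := by linarith
        have a3 : s₂ * g ^ 2 ≤ (s₂ * |g|) ^ 2 := by
          rw [mul_pow, sq_abs]
          exact mul_le_mul_of_nonneg_right (by nlinarith) (sq_nonneg g)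
        have a4 : -Δ ≤ |Δ| ^ 2 := by
          have := neg_abs_le Δ
          nlinarith
        have a5 : 0 ≤ s₂ * |g| * |Δ| := by positivity
        nlinarith
      · positivity
    have hB0 : (0 : ℤ) ≤ B := Int.natCast_nonneg _
    constructor
    · by_contra hcon
      push Not at hcon
      -- `|g| ≤ B`
      have b1 : |e| ≤ s₂ * B + |Δ| := heg.trans (by nlinarith)
      have b2 : V ≤ |l| * (s₂ * B + |Δ|) + |κ| * B := by nlinarith
      have b3 : |l| * (s₂ * B + |Δ|) + |κ| * B ≤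
          (B + 1) * (|l| * (s₂ + 1) + |κ| * (s₁ + 1)) + (|κ| + |l|) * |Δ| := by
        have c1 : 0 ≤ |l| * (B + s₂ + 1) := by positivity
        have c2 : 0 ≤ |κ| * (B * s₁ + s₁ + 1) := by positivity
        have c3 : 0 ≤ |κ| * |Δ| := by positivity
        nlinarith
      linarith
    · by_contra hcon
      push Not at hcon
      have b1 : |g| ≤ s₁ * B + |Δ| := hge.trans (by nlinarith)
      have b2 : V ≤ |l| * B + |κ| * (s₁ * B + |Δ|) := by nlinarith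
      have b3 : |l| * B + |κ| * (s₁ * B + |Δ|) ≤
          (B + 1) * (|l| * (s₂ + 1) + |κ| * (s₁ + 1)) + (|κ| + |l|) * |Δ| := by
        have c1 : 0 ≤ |l| * (B * s₂ + s₂ + 1) := by positivity
        have c2 : 0 ≤ |κ| * (B + s₁ + 1) := by positivity
        have c3 : 0 ≤ |l| * |Δ| := by positivity
        nlinarith
      linarith

/-- The points: two of each sign, as large as we like. -/
theorem core {K K' n l κ : ℤ} (hK : K ≠ 0) (h : K * K' = n ^ 3) (hlk : l * κ = n) (hn : n ≠ 0)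
    (hpos : 0 < n * l * K) (hsq : ¬ IsSquare (n * l * K)) (B : ℕ) :
    ∃ a b c d : ℤ, (B : ℤ) < a ∧ b < -(B : ℤ) ∧ (B : ℤ) < c ∧ d < -(B : ℤ) ∧
      |K| ^ 3 * ((c ^ 3 + K') * (d ^ 3 + K')) = |n * l| ^ 3 * ((a ^ 3 + K) * (b ^ 3 + K)) := by
  have hl : l ≠ 0 := by rintro rfl; simp at hlk; exact hn hlk.symm
  have hk : κ ≠ 0 := by rintro rfl; simp at hlk; exact hn hlk.symm
  have hs1 : 0 < |n * l| := abs_pos.2 (mul_ne_zero hn hl)
  have hs2 : 0 < |K| := abs_pos.2 hK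
  have hprod : |n * l| * |K| = n * l * K := by rw [← abs_mul, abs_of_pos hpos]
  have hs : |K| * (n * l) = |n * l| * K := by
    rcases lt_or_gt_of_ne hK with hKneg | hKpos
    · have h1 : n * l < 0 := by
        by_contra hcon
        push Not at hcon
        have : n * l * K ≤ 0 := mul_nonpos_of_nonneg_of_nonpos hcon hKneg.le
        linarith
      rw [abs_of_neg hKneg, abs_of_neg h1]; ring
    · have h1 : 0 < n * l := by
        by_contra hcon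
        push Not at hcon
        have : n * l * K ≤ 0 := mul_nonpos_of_nonpos_of_nonneg hcon hKpos.le
        linarith
      rw [abs_of_pos hKpos, abs_of_pos h1]; ring
  obtain ⟨g, e, hN, hg, he, hgB, heB⟩ := conic hl hk hs1 hs2 (by rw [hprod]; exact hsq)
    (2 * B + l.natAbs + κ.natAbs)
  push_cast at hgB heB
  have hg' : Even (|g| + l) := by
    rcases abs_cases g with ⟨h1, _⟩ | ⟨h1, _⟩
    · rw [h1]; exact hg
    · rw [h1, Int.even_add]; rw [Int.even_add] at hg; rw [even_neg]; exact hg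
  have he' : Even (|e| + κ) := by
    rcases abs_cases e with ⟨h1, _⟩ | ⟨h1, _⟩
    · rw [h1]; exact he
    · rw [h1, Int.even_add]; rw [Int.even_add] at he; rw [even_neg]; exact he
  obtain ⟨c, hc⟩ := hg'
  obtain ⟨a, ha⟩ := he'
  have hl1 : -|l| ≤ l := neg_abs_le l
  have hl2 : l ≤ |l| := le_abs_self l
  have hk1 : -|κ| ≤ κ := neg_abs_le κ
  have hk2 : κ ≤ |κ| := le_abs_self κ
  have hl0 : 0 ≤ |l| := abs_nonneg l
  have hk0 : 0 ≤ |κ| := abs_nonneg κ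
  refine ⟨a, κ - a, c, l - c, by linarith, by linarith, by linarith, by linarith, ?_⟩
  refine norm_id hK hl h hlk hs (by ring) (by ring) ?_
  have hg2 : g ^ 2 = (2 * c - l) ^ 2 := by
    rw [← sq_abs g]; congr 1; linarith
  have he2 : e ^ 2 = (2 * a - κ) ^ 2 := by
    rw [← sq_abs e]; congr 1; linarith
  rw [hg2, he2] at hN
  have h4 : 4 * (|K| * (c * (l - c))) = 4 * (|n * l| * (a * (κ - a))) := by linear_combination -hN
  exact mul_left_cancel₀ (by norm_num) h4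

end Pool.Agent.H26.PT
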