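import Mathlib
import Pool.Agent.H26.PT.Pair

/-!
Of two cube classes `k`, `k^2` at least one is good: both parities of the number of prime factors
of `m^3 + k'` occur infinitely often for every `k'` of the class.
-/

set_option autoImplicit false

namespace Pool.Agent.H26.PT

open Pool.Agent.H12.PAR

theorem lam_neg (x : ℤ) : lam (-x) = lam x := by unfold lam; rw [Int.natAbs_neg]

theorem lam_abs (x : ℤ) : lam |x| = lam x := by
  rcases abs_cases x with ⟨h, _⟩ | ⟨h, _⟩ <;> rw [h]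
  exact lam_neg x

theorem lam_square {x : ℤ} (hx : x ≠ 0) (h : IsSquare x) : lam x = 1 := by
  obtain ⟨y, rfl⟩ := h
  have hy : y ≠ 0 := by rintro rfl; simp at hx
  rw [lam_mul hy hy, lam_sq]

theorem lam_prime {p : ℕ} (hp : p.Prime) : lam (p : ℤ) = -1 := by
  unfold lam
  rw [Int.natAbs_natCast, ArithmeticFunction.cardFactors_apply_prime hp, pow_one]

/-- `K` is not a cube -/
def NC (K : ℤ) : Prop := ∀ a : ℤ, K ≠ a ^ 3

theorem NC.ne_zero {K : ℤ} (h : NC K) : K ≠ 0 := by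
  intro h0; exact h 0 (by rw [h0]; norm_num)

theorem NC.f_ne_zero {K : ℤ} (h : NC K) (a : ℤ) : a ^ 3 + K ≠ 0 := by
  intro h0; exact h (-a) (by linear_combination h0)

theorem NC.neg {K : ℤ} (h : NC K) : NC (-K) := by
  intro a ha; exact h (-a) (by linear_combination -ha)

theorem NC.other {K K' n : ℤ} (hK : NC K) (hn : n ≠ 0) (h : K * K' = n ^ 3) : NC K' := by
  intro t ht
  have ht0 : t ≠ 0 := by
    rintro rfl
    apply pow_ne_zero 3 hn
    rw [← h, ht]; ring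
  rw [ht] at h
  have h1 : t ^ 3 ∣ n ^ 3 := ⟨K, by rw [← h]; ring⟩
  obtain ⟨u, hu⟩ := (Int.pow_dvd_pow_iff three_ne_zero).1 h1
  apply hK u
  apply mul_right_cancel₀ (pow_ne_zero 3 ht0)
  rw [h, hu]; ring

/-- a prime divides `n` -/
theorem NC.exists_prime {K K' n : ℤ} (hK : NC K) (h : K * K' = n ^ 3) :
    ∃ p : ℕ, p.Prime ∧ (p : ℤ) ∣ n := by
  have h1 : n.natAbs ≠ 1 := by
    intro h1
    have hu : IsUnit n := Int.isUnit_iff_natAbs_eq.2 h1
    have hu3 : IsUnit (K * K') := by rw [h]; exact hu.pow 3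
    have hKu : IsUnit K := isUnit_of_mul_isUnit_left hu3
    rcases Int.isUnit_iff.1 hKu with h2 | h2
    · exact hK 1 (by rw [h2]; norm_num)
    · exact hK (-1) (by rw [h2]; norm_num)
  obtain ⟨p, hp, hpn⟩ := Nat.exists_prime_and_dvd h1
  exact ⟨p, hp, Int.natCast_dvd.2 hpn⟩

/-- the relation, in terms of `lam` -/
theorem core2 {K K' n : ℤ} (hK : NC K) (hn : n ≠ 0) (h : K * K' = n ^ 3) {l : ℕ} (hl : (l : ℤ) ∣ n)
    (hsq : ¬ IsSquare (|n * K| * l)) (B : ℕ) :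
    ∃ a b c d : ℤ, (B : ℤ) < a ∧ b < -(B : ℤ) ∧ (B : ℤ) < c ∧ d < -(B : ℤ) ∧
      lam (a ^ 3 + K) * lam (b ^ 3 + K) * (lam (c ^ 3 + K') * lam (d ^ 3 + K')) =
        lam (n * K) * lam l := by
  have hK0 := hK.ne_zero
  have hK' := hK.other hn h
  have hl0 : (l : ℤ) ≠ 0 := by
    rintro h0; rw [h0] at hl; exact hn (zero_dvd_iff.1 hl)
  have hlpos : (0 : ℤ) < l := lt_of_le_of_ne (Int.natCast_nonneg _) (Ne.symm hl0)
  obtain ⟨κ, hκ⟩ := hl
  have hnK : n * K ≠ 0 := mul_ne_zero hn hK0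
  -- the sign
  obtain ⟨σ, hσ, hσ'⟩ : ∃ σ : ℤ, |n * K| = σ * (n * K) ∧ σ * σ = 1 := by
    rcases abs_cases (n * K) with ⟨h1, _⟩ | ⟨h1, _⟩
    · exact ⟨1, by rw [h1]; ring, by norm_num⟩
    · exact ⟨-1, by rw [h1]; ring, by norm_num⟩
  have hD : n * (σ * l) * K = |n * K| * l := by rw [hσ]; ring
  obtain ⟨a, b, c, d, ha, hb, hc, hd, hid⟩ := core (l := σ * l) (κ := σ * κ) hK0 h
    (by
      calc σ * (l : ℤ) * (σ * κ) = (σ * σ) * (l * κ) := by ring
        _ = n := by rw [hσ', one_mul, ← hκ]) hn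
    (by rw [hD]; exact mul_pos (abs_pos.2 hnK) hlpos) (by rw [hD]; exact hsq) B
  refine ⟨a, b, c, d, ha, hb, hc, hd, ?_⟩
  have fa := hK.f_ne_zero a
  have fb := hK.f_ne_zero b
  have fc := hK'.f_ne_zero c
  have fd := hK'.f_ne_zero d
  have hσ0 : σ ≠ 0 := by rintro rfl; norm_num at hσ'
  have key := congrArg lam hid
  rw [lam_mul (pow_ne_zero 3 (abs_ne_zero.2 hK0)) (mul_ne_zero fc fd),
    lam_mul (pow_ne_zero 3 (abs_ne_zero.2 (mul_ne_zero hn (mul_ne_zero hσ0 hl0))))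
      (mul_ne_zero fa fb), lam_mul fc fd, lam_mul fa fb, lam_cube (abs_ne_zero.2 hK0),
    lam_cube (abs_ne_zero.2 (mul_ne_zero hn (mul_ne_zero hσ0 hl0))), lam_abs, lam_abs,
    lam_mul hn (mul_ne_zero hσ0 hl0), lam_mul hσ0 hl0] at key
  have hlσ : lam σ = 1 := by
    have h1 : σ = 1 ∨ σ = -1 := by
      have : (σ - 1) * (σ + 1) = 0 := by linear_combination hσ'
      rcases mul_eq_zero.1 this with h | h
      · left; linarith
      · right; linarith
    rcases h1 with h1 | h1 <;> rw [h1] <;> simp [lam]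
  rw [hlσ, one_mul] at key
  rw [lam_mul hn hK0]
  rcases lam_cases (a ^ 3 + K) with h1 | h1 <;> rcases lam_cases (b ^ 3 + K) with h2 | h2 <;>
    rcases lam_cases (c ^ 3 + K') with h3 | h3 <;> rcases lam_cases (d ^ 3 + K') with h4 | h4 <;>
    rcases lam_cases K with h5 | h5 <;> rcases lam_cases n with h6 | h6 <;>
    rcases lam_cases (l : ℤ) with h7 | h7 <;>
    rw [h1, h2, h3, h4, h5, h6, h7] at key <;> rw [h1, h2, h3, h4, h5, h6, h7] <;>
    first | (norm_num; done) | (exfalso; norm_num at key; done)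

/-- both parities, `m` an integer -/
def GoodZ (K : ℤ) : Prop :=
  {m : ℤ | lam (m ^ 3 + K) = 1}.Infinite ∧ {m : ℤ | lam (m ^ 3 + K) = -1}.Infinite

/-- both parities, `m` a natural number -/
def GoodN (K : ℤ) : Prop :=
  {m : ℕ | lam ((m : ℤ) ^ 3 + K) = 1}.Infinite ∧ {m : ℕ | lam ((m : ℤ) ^ 3 + K) = -1}.Infinite

theorem not_goodZ {K : ℤ} (h : ¬ GoodZ K) : ∃ ε : ℤ, ε * ε = 1 ∧ ∃ B : ℕ, ∀ m : ℤ, (B : ℤ) < |m| →
    lam (m ^ 3 + K) = ε := by
  have aux : ∀ δ : ℤ, {m : ℤ | lam (m ^ 3 + K) = δ}.Finite → ∃ B : ℕ, ∀ m : ℤ, (B : ℤ) < |m| →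
      lam (m ^ 3 + K) ≠ δ := by
    intro δ hfin
    obtain ⟨B, hB⟩ := (hfin.image Int.natAbs).bddAbove
    refine ⟨B, fun m hm he => ?_⟩
    have h1 : m.natAbs ≤ B := hB ⟨m, he, rfl⟩
    have h2 : (m.natAbs : ℤ) ≤ B := by exact_mod_cast h1
    rw [Int.natCast_natAbs] at h2
    linarith
  unfold GoodZ at h
  rw [not_and_or, Set.not_infinite, Set.not_infinite] at h
  rcases h with h | h
  · obtain ⟨B, hB⟩ := aux _ h
    exact ⟨-1, by norm_num, B, fun m hm => (lam_cases _).resolve_left (hB m hm)⟩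
  · obtain ⟨B, hB⟩ := aux _ h
    exact ⟨1, by norm_num, B, fun m hm => (lam_cases _).resolve_right (hB m hm)⟩

theorem not_goodN {K : ℤ} (h : ¬ GoodN K) : ∃ ε : ℤ, ∃ B : ℕ, ∀ m : ℤ, (B : ℤ) < m →
    lam (m ^ 3 + K) = ε := by
  have aux : ∀ δ : ℤ, {m : ℕ | lam ((m : ℤ) ^ 3 + K) = δ}.Finite → ∃ B : ℕ, ∀ m : ℤ, (B : ℤ) < m →
      lam (m ^ 3 + K) ≠ δ := by
    intro δ hfin
    obtain ⟨B, hB⟩ := hfin.bddAbove
    refine ⟨B, fun m hm he => ?_⟩
    have hm0 : 0 ≤ m := le_trans (Int.natCast_nonneg B) hm.le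
    obtain ⟨k, rfl⟩ := Int.eq_ofNat_of_zero_le hm0
    have h1 : k ≤ B := hB he
    have h2 : (k : ℤ) ≤ B := by exact_mod_cast h1
    linarith
  unfold GoodN at h
  rw [not_and_or, Set.not_infinite, Set.not_infinite] at h
  rcases h with h | h
  · obtain ⟨B, hB⟩ := aux _ h
    exact ⟨-1, B, fun m hm => (lam_cases _).resolve_left (hB m hm)⟩
  · obtain ⟨B, hB⟩ := aux _ h
    exact ⟨1, B, fun m hm => (lam_cases _).resolve_right (hB m hm)⟩

/-- the pair theorem, two-sided -/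
theorem pair {K K' n : ℤ} (hK : NC K) (hn : n ≠ 0) (h : K * K' = n ^ 3) : GoodZ K ∨ GoodZ K' := by
  by_contra hcon
  push Not at hcon
  obtain ⟨ε, hε, B, hB⟩ := not_goodZ hcon.1
  obtain ⟨ε', hε', B', hB'⟩ := not_goodZ hcon.2
  have hK0 := hK.ne_zero
  have hnK : n * K ≠ 0 := mul_ne_zero hn hK0
  -- a divisor `l` with `lam (n K l) = -1`
  obtain ⟨l, hl, hlam⟩ : ∃ l : ℕ, (l : ℤ) ∣ n ∧ lam (n * K) * lam l = -1 := by
    rcases lam_cases (n * K) with h1 | h1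
    · obtain ⟨p, hp, hpn⟩ := hK.exists_prime h
      exact ⟨p, hpn, by rw [h1, lam_prime hp]; norm_num⟩
    · exact ⟨1, by simp, by rw [h1]; simp [lam]⟩
  have hl0 : (l : ℤ) ≠ 0 := by
    rintro h0; rw [h0] at hl; exact hn (zero_dvd_iff.1 hl)
  have hsq : ¬ IsSquare (|n * K| * l) := by
    intro hs
    have h1 := lam_square (mul_ne_zero (abs_ne_zero.2 hnK) hl0) hs
    rw [lam_mul (abs_ne_zero.2 hnK) hl0, lam_abs, hlam] at h1
    norm_num at h1
  obtain ⟨a, b, c, d, ha, hb, hc, hd, hid⟩ := core2 hK hn h hl hsq (max B B')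
  have hm1 : (B : ℤ) ≤ ((max B B' : ℕ) : ℤ) := by exact_mod_cast le_max_left _ _
  have hm2 : (B' : ℤ) ≤ ((max B B' : ℕ) : ℤ) := by exact_mod_cast le_max_right _ _
  rw [hlam, hB a (by have := le_abs_self a; linarith), hB b (by have := neg_le_abs b; linarith),
    hB' c (by have := le_abs_self c; linarith), hB' d (by have := neg_le_abs d; linarith),
    hε, hε'] at hid
  norm_num at hid

/-- the one-sided version -/
theorem four {K K' n : ℤ} (hK : NC K) (hn : n ≠ 0) (h : K * K' = n ^ 3) {p q : ℕ} (hp : p.Prime)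
    (hq : q.Prime) (hpq : p ≠ q) (hpn : (p : ℤ) ∣ n) (hqn : (q : ℤ) ∣ n) :
    GoodN K ∨ GoodN (-K) ∨ GoodN K' ∨ GoodN (-K') := by
  by_contra hcon
  push Not at hcon
  obtain ⟨ε1, B1, hB1⟩ := not_goodN hcon.1
  obtain ⟨ε2, B2, hB2⟩ := not_goodN hcon.2.1
  obtain ⟨ε3, B3, hB3⟩ := not_goodN hcon.2.2.1
  obtain ⟨ε4, B4, hB4⟩ := not_goodN hcon.2.2.2
  have hK0 := hK.ne_zero
  have hnK : n * K ≠ 0 := mul_ne_zero hn hK0
  -- every admissible `l` gives the same value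
  have key : ∀ l : ℕ, (l : ℤ) ∣ n → ¬ IsSquare (|n * K| * l) →
      lam (n * K) * lam l = ε1 * ε2 * (ε3 * ε4) := by
    intro l hl hsq
    obtain ⟨a, b, c, d, ha, hb, hc, hd, hid⟩ := core2 hK hn h hl hsq (B1 + B2 + B3 + B4)
    push_cast at ha hb hc hd
    have i1 : (0 : ℤ) ≤ B1 := Int.natCast_nonneg _
    have i2 : (0 : ℤ) ≤ B2 := Int.natCast_nonneg _
    have i3 : (0 : ℤ) ≤ B3 := Int.natCast_nonneg _
    have i4 : (0 : ℤ) ≤ B4 := Int.natCast_nonneg _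
    have e2 : lam (b ^ 3 + K) = ε2 := by
      rw [← hB2 (-b) (by linarith), ← lam_neg]; congr 1; ring
    have e4 : lam (d ^ 3 + K') = ε4 := by
      rw [← hB4 (-d) (by linarith), ← lam_neg]; congr 1; ring
    rw [← hid, hB1 a (by linarith), e2, hB3 c (by linarith), e4]
  -- two admissible `l` with opposite values
  have sq2 : ∀ {l l' : ℕ}, 0 < l → 0 < l' → IsSquare (|n * K| * (l : ℤ)) →
      IsSquare (|n * K| * (l' : ℤ)) → IsSquare ((l : ℤ) * l') := by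
    intro l l' _ _ h1 h2
    obtain ⟨x, hx⟩ := h1
    obtain ⟨y, hy⟩ := h2
    have h3 : |n * K| ^ 2 ∣ (x * y) ^ 2 := ⟨l * l', by
      calc (x * y) ^ 2 = (x * x) * (y * y) := by ring
        _ = _ := by rw [← hx, ← hy]; ring⟩
    obtain ⟨t, ht⟩ := (Int.pow_dvd_pow_iff two_ne_zero).1 h3
    refine ⟨t, ?_⟩
    apply mul_left_cancel₀ (pow_ne_zero 2 (abs_ne_zero.2 hnK))
    calc |n * K| ^ 2 * ((l : ℤ) * l') = (|n * K| * l) * (|n * K| * l') := by ring
      _ = (x * y) ^ 2 := by rw [hx, hy]; ring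
      _ = _ := by rw [ht]; ring
  have hpqn : ((p * q : ℕ) : ℤ) ∣ n := by
    push_cast
    refine IsCoprime.mul_dvd ?_ hpn hqn
    exact Nat.isCoprime_iff_coprime.2 ((Nat.coprime_primes hp hq).2 hpq)
  have hpq_ns : ¬ IsSquare ((p : ℤ) * q) := by
    intro hs
    have h1 : IsSquare (p * q) := by
      obtain ⟨t, ht⟩ := hs
      refine ⟨t.natAbs, ?_⟩
      have := congrArg Int.natAbs ht
      rwa [Int.natAbs_mul, Int.natAbs_mul, Int.natAbs_natCast, Int.natAbs_natCast] at this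
    have h2 : p ∣ q := by
      obtain ⟨t, ht⟩ := h1
      have h3 : p ∣ t := by
        have : p ∣ t * t := ⟨q, ht.symm⟩
        exact (hp.dvd_mul.1 this).elim id id
      obtain ⟨u, hu⟩ := h3
      refine ⟨u * u, ?_⟩
      apply Nat.eq_of_mul_eq_mul_left hp.pos
      rw [ht, hu]; ring
    exact hpq ((Nat.prime_dvd_prime_iff_eq hp hq).1 h2)
  have hpc := lam_prime hp
  have hqc := lam_prime hq
  have hp0 : (p : ℤ) ≠ 0 := by exact_mod_cast hp.ne_zero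
  have hq0 : (q : ℤ) ≠ 0 := by exact_mod_cast hq.ne_zero
  have hpqc : lam ((p * q : ℕ) : ℤ) = 1 := by
    push_cast; rw [lam_mul hp0 hq0, hpc, hqc]; norm_num
  have h1c : lam ((1 : ℕ) : ℤ) = 1 := by simp [lam]
  have nsq : ∀ l : ℕ, (l : ℤ) ∣ n → lam (n * K) * lam l = -1 → ¬ IsSquare (|n * K| * l) := by
    intro l hl hlam hs
    have hl0 : (l : ℤ) ≠ 0 := by
      rintro h0; rw [h0] at hl; exact hn (zero_dvd_iff.1 hl)
    have h1 := lam_square (mul_ne_zero (abs_ne_zero.2 hnK) hl0) hs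
    rw [lam_mul (abs_ne_zero.2 hnK) hl0, lam_abs, hlam] at h1
    norm_num at h1
  rcases lam_cases (n * K) with hc1 | hc1
  · -- `l = p` gives `-1`; one of `1`, `p q` gives `1`
    have v1 := key p hpn (nsq p hpn (by rw [hc1, hpc]; norm_num))
    rw [hc1, hpc] at v1
    by_cases hs : IsSquare (|n * K| * ((1 : ℕ) : ℤ))
    · have v2 := key (p * q) hpqn (by
        intro hs'
        have := sq2 one_pos (Nat.mul_pos hp.pos hq.pos) hs hs'
        push_cast at this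
        rw [one_mul] at this
        exact hpq_ns this)
      rw [hc1, hpqc, ← v1] at v2
      norm_num at v2
    · have v2 := key 1 (by simp) hs
      rw [hc1, h1c, ← v1] at v2
      norm_num at v2
  · -- `l = 1` gives `-1`; one of `p`, `q` gives `1`
    have v1 := key 1 (by simp) (nsq 1 (by simp) (by rw [hc1, h1c]; norm_num))
    rw [hc1, h1c] at v1
    by_cases hs : IsSquare (|n * K| * (p : ℤ))
    · have v2 := key q hqn (fun hs' => hpq_ns (sq2 hp.pos hq.pos hs hs'))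
      rw [hc1, hqc, ← v1] at v2
      norm_num at v2
    · have v2 := key p hpn hs
      rw [hc1, hpc, ← v1] at v2
      norm_num at v2

/-- the same cube class -/
def CC (k k' : ℤ) : Prop := ∃ a b : ℤ, a ≠ 0 ∧ b ≠ 0 ∧ a ^ 3 * k = b ^ 3 * k'

theorem classes {k : ℤ} (hk : NC k) :
    (∀ k' : ℤ, CC k k' → GoodZ k') ∨ (∀ k' : ℤ, CC (k ^ 2) k' → GoodZ k') := by
  by_contra hcon
  push Not at hcon
  obtain ⟨⟨k₁, ⟨a, b, ha, hb, hab⟩, h1⟩, ⟨k₂, ⟨c, d, hc, hd, hcd⟩, h2⟩⟩ := hcon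
  have hk0 := hk.ne_zero
  have hk1 : NC k₁ := by
    intro t ht
    have h3 : a ^ 3 ∣ (b * t) ^ 3 := ⟨k, by rw [hab, ht]; ring⟩
    obtain ⟨u, hu⟩ := (Int.pow_dvd_pow_iff three_ne_zero).1 h3
    apply hk u
    apply mul_left_cancel₀ (pow_ne_zero 3 ha)
    rw [hab, ht]
    calc b ^ 3 * t ^ 3 = (b * t) ^ 3 := by ring
      _ = _ := by rw [hu]; ring
  have h3 : (b * d) ^ 3 ∣ (a * c * k) ^ 3 := ⟨k₁ * k₂, by
    calc (a * c * k) ^ 3 = (a ^ 3 * k) * (c ^ 3 * k ^ 2) := by ring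
      _ = _ := by rw [hab, hcd]; ring⟩
  obtain ⟨n, hn⟩ := (Int.pow_dvd_pow_iff three_ne_zero).1 h3
  have hn0 : n ≠ 0 := by
    rintro rfl
    rw [mul_zero] at hn
    exact mul_ne_zero (mul_ne_zero ha hc) hk0 hn
  have h4 : k₁ * k₂ = n ^ 3 := by
    apply mul_left_cancel₀ (pow_ne_zero 3 (mul_ne_zero hb hd))
    calc (b * d) ^ 3 * (k₁ * k₂) = (b ^ 3 * k₁) * (d ^ 3 * k₂) := by ring
      _ = (a * c * k) ^ 3 := by rw [← hab, ← hcd]; ring
      _ = _ := by rw [hn]; ring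
  rcases pair hk1 hn0 h4 with h5 | h5
  · exact h1 h5
  · exact h2 h5

end Pool.Agent.H26.PT
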