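import Mathlib
import Pool.Agent.H26.PT.Main

/-!
The one-sided version for all pairs, with the sequence `m^3 - 2` added. It uses the identity
`f(A) = f(B) (C^3+2)`, `f = x^3+K`, `A = -K t (3 K^2 t^3 + 2)`, `B = K t`, `C = -(3 K^2 t^3 + 1)`.
-/

set_option autoImplicit false

namespace Pool.Agent.H26.PT

open Pool.Agent.H12.PAR

theorem star (K t : ℤ) : (-(K * t * (3 * K ^ 2 * t ^ 3 + 2))) ^ 3 + K =
    ((K * t) ^ 3 + K) * ((-(3 * K ^ 2 * t ^ 3 + 1)) ^ 3 + 2) := by ring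

theorem nc_two : NC 2 := by
  intro a ha
  have h1 : a ≤ 1 := by
    by_contra h
    push Not at h
    have h2 : (2 : ℤ) ≤ a := h
    have h3 : (2 : ℤ) ^ 3 ≤ a ^ 3 := pow_le_pow_left₀ (by norm_num) h2 3
    rw [← ha] at h3
    norm_num at h3
  have h2 : 1 < a := by
    by_contra h
    push Not at h
    have h3 : a ^ 3 ≤ 1 ^ 3 := by
      rcases le_or_gt 0 a with h0 | h0
      · exact pow_le_pow_left₀ h0 h 3
      · have : a ^ 3 < 0 := Odd.pow_neg ⟨1, by norm_num⟩ h0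
        linarith
    rw [← ha] at h3
    norm_num at h3
  linarith

/-- the two tails of `x^3 + K` multiply to the negative tail of `x^3 + 2` -/
theorem tails {K ε ε' η : ℤ} (hK : NC K) {B B' B₂ : ℕ}
    (h1 : ∀ m : ℤ, (B : ℤ) < m → lam (m ^ 3 + K) = ε)
    (h2 : ∀ m : ℤ, (B' : ℤ) < m → lam (m ^ 3 + -K) = ε')
    (h3 : ∀ m : ℤ, (B₂ : ℤ) < m → lam (m ^ 3 + -2) = η) : ε * ε' = η := by
  have hK0 := hK.ne_zero
  -- negative arguments
  have h2' : ∀ m : ℤ, m < -(B' : ℤ) → lam (m ^ 3 + K) = ε' := by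
    intro m hm
    rw [← h2 (-m) (by linarith), ← lam_neg]; congr 1; ring
  have h3' : ∀ m : ℤ, m < -(B₂ : ℤ) → lam (m ^ 3 + 2) = η := by
    intro m hm
    rw [← h3 (-m) (by linarith), ← lam_neg]; congr 1; ring
  have i1 : (0 : ℤ) ≤ B := Int.natCast_nonneg _
  have i2 : (0 : ℤ) ≤ B' := Int.natCast_nonneg _
  have i3 : (0 : ℤ) ≤ B₂ := Int.natCast_nonneg _
  set t : ℤ := B + B' + B₂ + 1 with ht
  have ht1 : 1 ≤ t := by linarith
  have hK2 : 1 ≤ K ^ 2 := by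
    have : 0 < K ^ 2 := by positivity
    linarith
  have ht3 : t ≤ t ^ 3 := by nlinarith [mul_pos (show (0 : ℤ) < t by linarith) (show (0 : ℤ) < t by linarith)]
  have hX : t ≤ K ^ 2 * t ^ 3 := by
    have : 0 < t ^ 3 := by positivity
    nlinarith
  have hC : -(3 * K ^ 2 * t ^ 3 + 1) < -(B₂ : ℤ) := by nlinarith
  have key := congrArg lam (star K t)
  have f1 : (K * t) ^ 3 + K ≠ 0 := hK.f_ne_zero _
  have f2 : (-(3 * K ^ 2 * t ^ 3 + 1)) ^ 3 + 2 ≠ 0 := nc_two.f_ne_zero _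
  rw [lam_mul f1 f2, h3' _ hC] at key
  have e1 : lam ((K * t) ^ 3 + K) * lam ((K * t) ^ 3 + K) = 1 := lam_sq _
  rcases lt_or_gt_of_ne hK0 with hneg | hpos
  · -- `K < 0`
    have hB1 : K * t < -(B' : ℤ) := by nlinarith
    have hA1 : (B : ℤ) < -(K * t * (3 * K ^ 2 * t ^ 3 + 2)) := by
      have a1 : 1 ≤ -(K * t) := by nlinarith
      have a2 : t ≤ 3 * K ^ 2 * t ^ 3 + 2 := by nlinarith
      have a3 : (B : ℤ) < t := by linarith
      nlinarith
    rw [h1 _ hA1, h2' _ hB1] at key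
    rw [h2' _ hB1] at e1
    rw [key]
    linear_combination η * e1
  · have hB1 : (B : ℤ) < K * t := by nlinarith
    have hA1 : -(K * t * (3 * K ^ 2 * t ^ 3 + 2)) < -(B' : ℤ) := by
      have a1 : 1 ≤ K * t := by nlinarith
      have a2 : t ≤ 3 * K ^ 2 * t ^ 3 + 2 := by nlinarith
      have a3 : (B' : ℤ) < t := by linarith
      nlinarith
    rw [h2' _ hA1, h1 _ hB1] at key
    rw [h1 _ hB1] at e1
    rw [key]
    linear_combination η * e1

/-- all pairs, one-sided, with `m^3 - 2` -/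
theorem five {K K' n : ℤ} (hK : NC K) (hn : n ≠ 0) (h : K * K' = n ^ 3) :
    GoodN (-2) ∨ GoodN K ∨ GoodN (-K) ∨ GoodN K' ∨ GoodN (-K') := by
  by_contra hcon
  push Not at hcon
  obtain ⟨η, B0, hB0⟩ := not_goodN hcon.1
  obtain ⟨ε1, B1, hB1⟩ := not_goodN hcon.2.1
  obtain ⟨ε2, B2, hB2⟩ := not_goodN hcon.2.2.1
  obtain ⟨ε3, B3, hB3⟩ := not_goodN hcon.2.2.2.1
  obtain ⟨ε4, B4, hB4⟩ := not_goodN hcon.2.2.2.2
  have hK0 := hK.ne_zero
  have hK' := hK.other hn h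
  have hnK : n * K ≠ 0 := mul_ne_zero hn hK0
  have t1 := tails hK hB1 hB2 hB0
  have t2 := tails hK' hB3 hB4 hB0
  have hη : η * η = 1 := by
    have := hB0 (B0 + 1) (by linarith)
    rw [← this]; exact lam_sq _
  -- a divisor `l` with `lam (n K l) = -1`
  obtain ⟨l, hl, hlam⟩ : ∃ l : ℕ, (l : ℤ) ∣ n ∧ lam (n * K) * lam l = -1 := by
    rcases lam_cases (n * K) with h1 | h1
    · obtain ⟨p, hp, hpn⟩ := hK.exists_prime h
      exact ⟨p, hpn, by rw [h1, lam_prime hp]; norm_num⟩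
    · exact ⟨1, by simp, by rw [h1]; simp [lam]⟩
  have hl0 : (l : ℤ) ≠ 0 := by
    rintro h0; rw [h0] at hl; exact hn (zero_dvd_iff.1 hl)
  have hsq : ¬ IsSquare (|n * K| * l) := by
    intro hs
    have h1 := lam_square (mul_ne_zero (abs_ne_zero.2 hnK) hl0) hs
    rw [lam_mul (abs_ne_zero.2 hnK) hl0, lam_abs, hlam] at h1
    norm_num at h1
  obtain ⟨a, b, c, d, ha, hb, hc, hd, hid⟩ := core2 hK hn h hl hsq (B1 + B2 + B3 + B4)
  push_cast at ha hb hc hd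
  have i1 : (0 : ℤ) ≤ B1 := Int.natCast_nonneg _
  have i2 : (0 : ℤ) ≤ B2 := Int.natCast_nonneg _
  have i3 : (0 : ℤ) ≤ B3 := Int.natCast_nonneg _
  have i4 : (0 : ℤ) ≤ B4 := Int.natCast_nonneg _
  have e2 : lam (b ^ 3 + K) = ε2 := by
    rw [← hB2 (-b) (by linarith), ← lam_neg]; congr 1; ring
  have e4 : lam (d ^ 3 + K') = ε4 := by
    rw [← hB4 (-d) (by linarith), ← lam_neg]; congr 1; ring
  rw [hlam, hB1 a (by linarith), e2, hB3 c (by linarith), e4, t1, t2, hη] at hid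
  norm_num at hid

end Pool.Agent.H26.PT
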