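import Mathlib
import Pool.Agent.H26.PT.Main

/-!
The sequences `m^3 - L`, `m = 1, 2, ...`. Let `K = l h b^2`, `K' = l^2 h^2 b`. If the parities of
`m^3 - K` and of `m^3 - K'` are eventually constant, `η` and `η'`, and `l < b h^2`, `b l` is not a
square, then `η η' = lam h`.
-/

set_option autoImplicit false

namespace Pool.Agent.H26.PT

open Pool.Agent.H12.PAR

/-- the parity of `m^3 - L` is constant for large `m` -/
def Tl (L η : ℤ) : Prop := ∃ B : ℕ, ∀ m : ℤ, (B : ℤ) < m → lam (m ^ 3 - L) = η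

theorem Tl.sq {L η : ℤ} (h : Tl L η) : η * η = 1 := by
  obtain ⟨B, hB⟩ := h
  have := hB (B + 1) (by linarith)
  rw [← this]; exact lam_sq _

theorem NC.g_ne_zero {K : ℤ} (h : NC K) (m : ℤ) : m ^ 3 - K ≠ 0 := by
  intro h0; exact h m (by linear_combination -h0)

/-- Pell solutions with a congruence -/
theorem pell_cong0 {D : ℤ} (hD : 0 < D) (hsq : ¬ IsSquare D) (B : ℕ) :
    ∃ U V : ℤ, U ^ 2 - D * V ^ 2 = 1 ∧ 2 * D ∣ U - 1 ∧ Even V ∧ 1 ≤ U ∧ (B : ℤ) + 1 ≤ V := by
  induction B with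
  | zero =>
    obtain ⟨x, y, hxy, hy⟩ := Pell.exists_of_not_isSquare hD hsq
    have hx : x ≠ 0 := by
      rintro rfl
      have : 0 ≤ D * y ^ 2 := by positivity
      nlinarith
    refine ⟨x ^ 2 + D * y ^ 2, 2 * (|x| * |y|), ?_, ⟨y ^ 2, by linear_combination hxy⟩,
      ⟨|x| * |y|, by ring⟩, ?_, ?_⟩
    · have h1 : (2 * (|x| * |y|)) ^ 2 = 4 * (x ^ 2 * y ^ 2) := by
        rw [mul_pow, mul_pow, sq_abs, sq_abs]; ring
      rw [h1]
      have h2 : (x ^ 2 + D * y ^ 2) ^ 2 - D * (4 * (x ^ 2 * y ^ 2)) = (x ^ 2 - D * y ^ 2) ^ 2 := by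
        ring
      rw [h2, hxy]; norm_num
    · have : 0 ≤ D * y ^ 2 := by positivity
      linarith
    · have h1 : 1 ≤ |x| := Int.one_le_abs hx
      have h2 : 1 ≤ |y| := Int.one_le_abs hy
      have h3 : 1 ≤ |x| * |y| := by nlinarith
      push_cast
      linarith
  | succ B ih =>
    obtain ⟨U, V, h, ⟨u, hu⟩, hV, hU1, hV1⟩ := ih
    refine ⟨2 * U ^ 2 - 1, 2 * (U * V), ?_, ⟨2 * (u * (U + 1)), ?_⟩, ⟨U * V, by ring⟩, ?_, ?_⟩
    · have h1 : D * V ^ 2 = U ^ 2 - 1 := by linarith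
      have h2 : (2 * U ^ 2 - 1) ^ 2 - D * (2 * (U * V)) ^ 2 =
          (2 * U ^ 2 - 1) ^ 2 - 4 * U ^ 2 * (D * V ^ 2) := by ring
      rw [h2, h1]; ring
    · linear_combination 2 * (U + 1) * hu
    · nlinarith
    · have hV0 : 0 < V := by
        have : (0 : ℤ) ≤ B := Int.natCast_nonneg _
        linarith
      have h3 : V ≤ U * V := by nlinarith
      have : (0 : ℤ) ≤ B := Int.natCast_nonneg _
      push_cast
      linarith

/-- the core equation `b S (S - h) = l T (T - 1)`, `T = h w`, has arbitrarily large solutions -/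
theorem exS {b l h : ℤ} (hb : 0 < b) (hl : 0 < l) (hh : 0 < h) (hlt : l < b * h ^ 2)
    (hsq : ¬ IsSquare (b * l)) (B : ℕ) :
    ∃ S w : ℤ, b * (S * (S - h)) = l * (h * w * (h * w - 1)) ∧ (B : ℤ) < w ∧ (B : ℤ) < S - h := by
  have hD : 0 < b * l * h ^ 2 := by positivity
  have hsq' : ¬ IsSquare (b * l * h ^ 2) := by
    rintro ⟨t, ht⟩
    have h1 : h ^ 2 ∣ t ^ 2 := ⟨b * l, by linear_combination -ht⟩
    obtain ⟨r, hr⟩ := (Int.pow_dvd_pow_iff two_ne_zero).1 h1
    apply hsq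
    refine ⟨r, ?_⟩
    apply mul_right_cancel₀ (pow_ne_zero 2 hh.ne')
    rw [ht, hr]; ring
  obtain ⟨M, hM⟩ : ∃ M : ℕ, (M : ℤ) = 2 * (h ^ 2 * b + (B + 1) * (h * b + 1)) + 4 * h ^ 2 * (B + 1) := by
    refine ⟨(2 * (h ^ 2 * b + (B + 1) * (h * b + 1)) + 4 * h ^ 2 * (B + 1)).toNat, ?_⟩
    rw [Int.toNat_of_nonneg]; positivity
  obtain ⟨U, V, hUV, ⟨u0, hu0⟩, ⟨V', hV'⟩, hU1, hVM⟩ := pell_cong0 hD hsq' M
  -- `U = 1 + 2 h u`, the second unknown is `2 W`, `W = h V'`
  obtain ⟨u, hu⟩ : ∃ u : ℤ, U = 2 * h * u + 1 := ⟨b * l * h * u0, by linear_combination hu0⟩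
  set W : ℤ := h * V' with hW
  have hB0 : (0 : ℤ) ≤ B := Int.natCast_nonneg _
  have hM0 : (0 : ℤ) ≤ M := Int.natCast_nonneg _
  have hVV : (M : ℤ) + 1 ≤ 2 * V' := by rw [hV'] at hVM; linarith
  have hV0 : 0 < V' := by linarith
  have hWV : V' ≤ W := by rw [hW]; nlinarith
  have hW0 : 0 < W := lt_of_lt_of_le hV0 hWV
  have key : h * u * (h * u + 1) = b * l * W ^ 2 := by
    have : 4 * (h * u * (h * u + 1)) = 4 * (b * l * W ^ 2) := by
      rw [hW]
      rw [hu, hV'] at hUV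
      linear_combination hUV
    exact mul_left_cancel₀ (by norm_num) this
  have hu1 : 0 ≤ h * u := by
    rw [hu] at hU1; linarith
  have hu2 : 0 ≤ u := by
    by_contra hcon
    push Not at hcon
    have : h * u < 0 := mul_neg_of_pos_of_neg hh hcon
    linarith
  have hWB : 2 * (2 * h ^ 2 * (B + 1)) < 2 * W ∧
      2 * (h ^ 2 * b + (B + 1) * (h * b + 1)) < 2 * W := by
    have e1 : (0 : ℤ) ≤ 2 * (h ^ 2 * b + (B + 1) * (h * b + 1)) := by positivity
    have e2 : (0 : ℤ) ≤ 4 * h ^ 2 * (B + 1) := by positivity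
    constructor <;> linarith
  -- `h u ≤ b h W`
  have hsq1 : (h * u) ^ 2 ≤ b * l * W ^ 2 := by nlinarith
  have hle : h * u ≤ b * h * W := by
    apply abs_le_of_sq_le_sq' _ (by positivity) |>.2
    have : b * l * W ^ 2 ≤ (b * h * W) ^ 2 := by
      have : l * (b * W ^ 2) ≤ b * h ^ 2 * (b * W ^ 2) :=
        mul_le_mul_of_nonneg_right hlt.le (by positivity)
      nlinarith
    linarith
  refine ⟨h ^ 2 * u + h - l * W, b * W - u, ?_, ?_, ?_⟩
  · linear_combination (b * h ^ 2 - l) * key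
  · by_contra hcon
    push Not at hcon
    -- `(h b W - h u) (h b W + h u) ≥ b W^2`
    have p1 : b * W ^ 2 ≤ (h * (b * W - u)) * (b * h * W + h * u) := by
      have : (h * (b * W - u)) * (b * h * W + h * u) = b * (b * h ^ 2) * W ^ 2 - (h * u) ^ 2 := by ring
      rw [this]
      have : b * (l + 1) * W ^ 2 ≤ b * (b * h ^ 2) * W ^ 2 := by
        have : b * (l + 1) ≤ b * (b * h ^ 2) := mul_le_mul_of_nonneg_left hlt hb.le
        exact mul_le_mul_of_nonneg_right this (by positivity)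
      nlinarith
    have p2 : (h * (b * W - u)) * (b * h * W + h * u) ≤ (h * B) * (2 * (b * h * W)) := by
      have q1 : h * (b * W - u) ≤ h * B := mul_le_mul_of_nonneg_left hcon hh.le
      have q2 : 0 ≤ b * h * W + h * u := by positivity
      have q3 : (h * (b * W - u)) * (b * h * W + h * u) ≤ (h * B) * (b * h * W + h * u) :=
        mul_le_mul_of_nonneg_right q1 q2
      have q4 : (h * B) * (b * h * W + h * u) ≤ (h * B) * (2 * (b * h * W)) :=
        mul_le_mul_of_nonneg_left (by linarith) (by positivity)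
      linarith
    have p3 : (b * W) * W ≤ (b * W) * (2 * h ^ 2 * B) := by nlinarith
    have p4 : W ≤ 2 * h ^ 2 * B := le_of_mul_le_mul_left p3 (by positivity)
    have p5 : (0 : ℤ) ≤ 2 * h ^ 2 := by positivity
    nlinarith [hWB.1]
  · by_contra hcon
    push Not at hcon
    have hz : h ^ 2 * u - l * W ≤ B := by linarith
    have p1 : l * W * (W - h ^ 2 * b) ≤ (h ^ 2 * u - l * W) * (h ^ 2 * u + l * W) := by
      have e1 : (h ^ 2 * u - l * W) * (h ^ 2 * u + l * W) =
          h ^ 2 * (b * l * W ^ 2) - h ^ 2 * (h * u) - l ^ 2 * W ^ 2 := by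
        rw [← key]; ring
      rw [e1]
      have e2 : l * W ^ 2 * (l + 1) ≤ l * W ^ 2 * (b * h ^ 2) :=
        mul_le_mul_of_nonneg_left hlt (by positivity)
      have e3 : h * u ≤ b * l * W := by
        apply abs_le_of_sq_le_sq' _ (by positivity) |>.2
        have e4 : b * l * W ^ 2 ≤ (b * l * W) ^ 2 := by
          have : (b * l * W ^ 2) * 1 ≤ (b * l * W ^ 2) * (b * l) :=
            mul_le_mul_of_nonneg_left (by nlinarith) (by positivity)
          nlinarith
        linarith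
      have e5 : h ^ 2 * (h * u) ≤ h ^ 2 * (b * l * W) := mul_le_mul_of_nonneg_left e3 (by positivity)
      nlinarith
    have p2 : (h ^ 2 * u - l * W) * (h ^ 2 * u + l * W) ≤ B * (l * W * (h * b + 1)) := by
      have q2 : 0 ≤ h ^ 2 * u + l * W := by positivity
      have q3 : (h ^ 2 * u - l * W) * (h ^ 2 * u + l * W) ≤ B * (h ^ 2 * u + l * W) :=
        mul_le_mul_of_nonneg_right hz q2
      have e3 : h * u ≤ b * l * W := by
        apply abs_le_of_sq_le_sq' _ (by positivity) |>.2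
        have e4 : b * l * W ^ 2 ≤ (b * l * W) ^ 2 := by
          have : (b * l * W ^ 2) * 1 ≤ (b * l * W ^ 2) * (b * l) :=
            mul_le_mul_of_nonneg_left (by nlinarith) (by positivity)
          nlinarith
        linarith
      have q4 : h ^ 2 * u + l * W ≤ l * W * (h * b + 1) := by
        have : h * (h * u) ≤ h * (b * l * W) := mul_le_mul_of_nonneg_left e3 hh.le
        nlinarith
      exact q3.trans (mul_le_mul_of_nonneg_left q4 hB0)
    have p3 : (l * W) * (W - h ^ 2 * b) ≤ (l * W) * (B * (h * b + 1)) := by nlinarith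
    have p4 : W - h ^ 2 * b ≤ B * (h * b + 1) := le_of_mul_le_mul_left p3 (by positivity)
    have p5 : (0 : ℤ) ≤ h * b + 1 := by positivity
    nlinarith [hWB.2]

end Pool.Agent.H26.PT
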