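import Mathlib
import Pool.Agent.H26.PT.Neg

/-!
The relation of the two tails: `η η' = lam h`, and the relation with the tail of `m^3 - 2`.
-/

set_option autoImplicit false

namespace Pool.Agent.H26.PT

open Pool.Agent.H12.PAR

/-- `K = l h b^2`, `K' = l^2 h^2 b`, `l < b h^2`, `b l` not a square: the tails multiply to `lam h`. -/
theorem tails_mul {b l h η η' : ℤ} (hb : 0 < b) (hl : 0 < l) (hh : 0 < h) (hlt : l < b * h ^ 2)
    (hsq : ¬ IsSquare (b * l)) (hK : NC (l * h * b ^ 2)) (hK' : NC (l ^ 2 * h ^ 2 * b))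
    (h1 : Tl (l * h * b ^ 2) η) (h2 : Tl (l ^ 2 * h ^ 2 * b) η') : η * η' = lam h := by
  have s1 := h1.sq
  have s2 := h2.sq
  obtain ⟨B1, hB1⟩ := h1
  obtain ⟨B2, hB2⟩ := h2
  obtain ⟨S, w, hSw, hw, hS⟩ := exS hb hl hh hlt hsq (B1 + B2 + 1)
  push_cast at hw hS
  have i1 : (0 : ℤ) ≤ B1 := Int.natCast_nonneg _
  have i2 : (0 : ℤ) ≤ B2 := Int.natCast_nonneg _
  have hw1 : 1 ≤ w := by linarith
  have hhw : w ≤ h * w := by nlinarith
  have hSh : 1 ≤ S := by linarith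
  -- the six values
  have v1 := hB1 (b * S) (by nlinarith)
  have v2 := hB1 (b * (S - h)) (by nlinarith)
  have v3 := hB1 (l * h * w ^ 2) (by
    have a1 : w ≤ w ^ 2 := by nlinarith
    have a2 : 1 ≤ l * h := by nlinarith
    have a3 : w ^ 2 ≤ l * h * w ^ 2 := by nlinarith
    linarith)
  have v4 := hB2 (l * (h * w)) (by nlinarith)
  have v5 := hB2 (l * (h * w - 1)) (by nlinarith)
  have v6 := hB2 (b * S ^ 2) (by
    have a1 : S ≤ S ^ 2 := by nlinarith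
    have a3 : S ^ 2 ≤ b * S ^ 2 := by nlinarith
    linarith)
  have n1 := hK.g_ne_zero (b * S)
  have n2 := hK.g_ne_zero (b * (S - h))
  have n3 := hK.g_ne_zero (l * h * w ^ 2)
  have n4 := hK'.g_ne_zero (l * (h * w))
  have n5 := hK'.g_ne_zero (l * (h * w - 1))
  have n6 := hK'.g_ne_zero (b * S ^ 2)
  -- factors
  set α : ℤ := b * S ^ 3 - l * h with hα
  set α' : ℤ := b * S ^ 3 + l * h with hα'
  set α'' : ℤ := b * (S - h) ^ 3 - l * h with hα''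
  set β : ℤ := l * h * w ^ 3 - b with hβ
  set β' : ℤ := l * h * w ^ 3 + b with hβ'
  set β'' : ℤ := l * (h * w - 1) ^ 3 - h ^ 2 * b with hβ''
  have e1 : (b * S) ^ 3 - l * h * b ^ 2 = b ^ 2 * α := by rw [hα]; ring
  have e2 : (b * (S - h)) ^ 3 - l * h * b ^ 2 = b ^ 2 * α'' := by rw [hα'']; ring
  have e3 : (l * h * w ^ 2) ^ 3 - l * h * b ^ 2 = l * h * (β * β') := by rw [hβ, hβ']; ring
  have e4 : (l * (h * w)) ^ 3 - l ^ 2 * h ^ 2 * b = (l * h) ^ 2 * β := by rw [hβ]; ring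
  have e5 : (l * (h * w - 1)) ^ 3 - l ^ 2 * h ^ 2 * b = l ^ 2 * β'' := by rw [hβ'']; ring
  have e6 : (b * S ^ 2) ^ 3 - l ^ 2 * h ^ 2 * b = b * (α * α') := by rw [hα, hα']; ring
  rw [e1] at v1 n1
  rw [e2] at v2 n2
  rw [e3] at v3 n3
  rw [e4] at v4 n4
  rw [e5] at v5 n5
  rw [e6] at v6 n6
  have z1 : α ≠ 0 := right_ne_zero_of_mul n1
  have z2 : α'' ≠ 0 := right_ne_zero_of_mul n2
  have z3 : β ≠ 0 := left_ne_zero_of_mul (right_ne_zero_of_mul n3)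
  have z3' : β' ≠ 0 := right_ne_zero_of_mul (right_ne_zero_of_mul n3)
  have z5 : β'' ≠ 0 := right_ne_zero_of_mul n5
  have z6 : α' ≠ 0 := right_ne_zero_of_mul (right_ne_zero_of_mul n6)
  have hb0 := hb.ne'
  have hl0 := hl.ne'
  have hh0 := hh.ne'
  have sqr : ∀ {x : ℤ}, x ≠ 0 → lam (x ^ 2) = 1 := by
    intro x hx; rw [pow_two, lam_mul hx hx, lam_sq]
  rw [lam_mul (pow_ne_zero 2 hb0) z1, sqr hb0, one_mul] at v1
  rw [lam_mul (pow_ne_zero 2 hb0) z2, sqr hb0, one_mul] at v2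
  rw [lam_mul (mul_ne_zero hl0 hh0) (mul_ne_zero z3 z3'), lam_mul hl0 hh0, lam_mul z3 z3'] at v3
  rw [lam_mul (pow_ne_zero 2 (mul_ne_zero hl0 hh0)) z3, sqr (mul_ne_zero hl0 hh0), one_mul] at v4
  rw [lam_mul (pow_ne_zero 2 hl0) z5, sqr hl0, one_mul] at v5
  rw [lam_mul hb0 (mul_ne_zero z1 z6), lam_mul z1 z6] at v6
  -- the norm identity
  have N : l * (h ^ 2 * β' * β'') = b * (α' * α'') := by
    have q : h ^ 2 * β' = l * (h * w) ^ 3 + h ^ 2 * b := by rw [hβ']; ring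
    rw [q, hβ'', hα', hα'']
    have hu : ∀ u x y : ℤ, b * (S * (S - h)) = u → l * (h * w * (h * w - 1)) = u →
        x = l * ((l * (h * w) ^ 3 + h ^ 2 * b) * (l * (h * w - 1) ^ 3 - h ^ 2 * b)) →
        y = b * ((b * S ^ 3 + l * h) * (b * (S - h) ^ 3 - l * h)) →
        x = u ^ 3 - 3 * h ^ 2 * b * l * u - h ^ 2 * b * l ^ 2 - l * h ^ 4 * b ^ 2 := by
      intro u x y _ hu2 hx _
      rw [hx, ← hu2]; ring
    have hv : ∀ u y : ℤ, b * (S * (S - h)) = u →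
        y = b * ((b * S ^ 3 + l * h) * (b * (S - h) ^ 3 - l * h)) →
        y = u ^ 3 - 3 * h ^ 2 * b * l * u - h ^ 2 * b * l ^ 2 - l * h ^ 4 * b ^ 2 := by
      intro u y hu1 hy
      rw [hy, ← hu1]; ring
    rw [hu _ _ _ hSw rfl rfl rfl, ← hv _ _ hSw rfl]
  have N' := congrArg lam N
  rw [lam_mul hl0 (mul_ne_zero (mul_ne_zero (pow_ne_zero 2 hh0) z3') z5),
    lam_mul (mul_ne_zero (pow_ne_zero 2 hh0) z3') z5, lam_mul (pow_ne_zero 2 hh0) z3', sqr hh0,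
    one_mul, lam_mul hb0 (mul_ne_zero z6 z2), lam_mul z6 z2] at N'
  rw [v1] at v6
  rw [v4] at v3
  rw [v2, v5] at N'
  have q1 : lam l * (lam β' * η') = η' := by rw [N', ← v6]; ring
  have q2 : lam h * η' = η := by
    calc lam h * η' = lam h * (lam l * (lam β' * η')) := by rw [q1]
      _ = lam l * lam h * (η' * lam β') := by ring
      _ = η := v3
  rw [← q2]
  linear_combination (lam h) * s2

/-- with the tail of `m^3 - 2` -/
theorem tails_two {K K' n η η' β : ℤ} (hK : NC K) (hK' : NC K') (hn : 0 < n) (hKpos' : 0 < K')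
    (h : K * K' = n ^ 3) (h1 : Tl K η) (h2 : Tl K' η') (h3 : Tl 2 β) : η * β = lam K := by
  have s2 := h2.sq
  obtain ⟨B1, hB1⟩ := h1
  obtain ⟨B2, hB2⟩ := h2
  obtain ⟨B3, hB3⟩ := h3
  have i1 : (0 : ℤ) ≤ B1 := Int.natCast_nonneg _
  have i2 : (0 : ℤ) ≤ B2 := Int.natCast_nonneg _
  have i3 : (0 : ℤ) ≤ B3 := Int.natCast_nonneg _
  obtain ⟨t, ht⟩ : ∃ t : ℤ, t = B1 + B2 + B3 + 1 := ⟨_, rfl⟩
  have ht1 : 1 ≤ t := by linarith
  have ht2 : t ≤ t ^ 2 := by nlinarith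
  have ht3 : t ≤ t ^ 3 := by
    have : t ^ 2 ≤ t ^ 3 := by
      have : t ^ 3 = t ^ 2 * t := by ring
      nlinarith
    linarith
  have hKK : 1 ≤ K' ^ 2 := by nlinarith
  have hX : t ≤ K' ^ 2 * t ^ 3 := by
    have : 0 < t ^ 3 := by positivity
    nlinarith
  have hKt : t ≤ K' * t := by nlinarith
  have v1 := hB1 (n * K' * t ^ 2) (by
    have a2 : 1 ≤ n * K' := by nlinarith
    have a3 : t ^ 2 ≤ n * K' * t ^ 2 := by nlinarith
    linarith)
  have v2 := hB2 (K' * t) (by linarith)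
  have v3 := hB2 (K' * t * (3 * (K' ^ 2 * t ^ 3) + 2)) (by
    have a1 : 1 ≤ 3 * (K' ^ 2 * t ^ 3) + 2 := by linarith
    have a2 : 0 < K' * t := by linarith
    have a3 : K' * t ≤ K' * t * (3 * (K' ^ 2 * t ^ 3) + 2) := le_mul_of_one_le_right a2.le a1
    linarith)
  have v4 := hB3 (3 * (K' ^ 2 * t ^ 3) + 1) (by linarith)
  have id1 : K * (((K' * t * (3 * (K' ^ 2 * t ^ 3) + 2)) ^ 3 - K') * ((K' * t) ^ 3 - K')) =
      K' ^ 2 * (((n * K' * t ^ 2) ^ 3 - K) * ((3 * (K' ^ 2 * t ^ 3) + 1) ^ 3 - 2)) := by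
    have e : (n * K' * t ^ 2) ^ 3 = K * K' * (K' * t ^ 2) ^ 3 := by rw [h]; ring
    rw [e]; ring
  have key := congrArg lam id1
  have n1 := hK.g_ne_zero (n * K' * t ^ 2)
  have n2 := hK'.g_ne_zero (K' * t)
  have n3 := hK'.g_ne_zero (K' * t * (3 * (K' ^ 2 * t ^ 3) + 2))
  have nc2 : NC 2 := by
    intro a ha
    have h5 : a ≤ 1 := by
      by_contra h6
      push Not at h6
      have h7 : (2 : ℤ) ≤ a := h6
      have h8 : (2 : ℤ) ^ 3 ≤ a ^ 3 := pow_le_pow_left₀ (by norm_num) h7 3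
      rw [← ha] at h8
      norm_num at h8
    have h6 : 1 < a := by
      by_contra h7
      push Not at h7
      have h8 : a ^ 3 ≤ 1 ^ 3 := by
        rcases le_or_gt 0 a with h0 | h0
        · exact pow_le_pow_left₀ h0 h7 3
        · have : a ^ 3 < 0 := Odd.pow_neg ⟨1, by norm_num⟩ h0
          linarith
      rw [← ha] at h8
      norm_num at h8
    linarith
  have n4 := nc2.g_ne_zero (3 * (K' ^ 2 * t ^ 3) + 1)
  rw [lam_mul hK.ne_zero (mul_ne_zero n3 n2), lam_mul n3 n2, v2, v3, s2,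
    lam_mul (pow_ne_zero 2 hK'.ne_zero) (mul_ne_zero n1 n4), lam_mul n1 n4, v1, v4, pow_two,
    lam_mul hK'.ne_zero hK'.ne_zero, lam_sq, mul_one, one_mul] at key
  exact key.symm

end Pool.Agent.H26.PT
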