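import Mathlib
import Pool.Agent.H26.PT.NegB
import Pool.Agent.H26.PT.Five

/-!
The sequences `m^3 - L`, `L > 0`, `m = 1, 2, ...`: for every `k` which is not a cube, both parities
occur infinitely often for all `L > 0` in the cube class of `k`, or for all `L > 0` in the cube
class of `k^2`, or (only if `k` or `k^2` is in the class of an odd prime) for all `L > 0` in the
cube class of `2`.
-/

set_option autoImplicit false

namespace Pool.Agent.H26.PT

open Pool.Agent.H12.PAR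

theorem Tl.scale {j K η : ℤ} (hj : 0 < j) (hK : NC K) (h : Tl (j ^ 3 * K) η) :
    Tl K (lam j * η) := by
  obtain ⟨B, hB⟩ := h
  refine ⟨B, fun m hm => ?_⟩
  have hB0 : (0 : ℤ) ≤ B := Int.natCast_nonneg _
  have h1 := hB (j * m) (by nlinarith)
  have e : (j * m) ^ 3 - j ^ 3 * K = j ^ 3 * (m ^ 3 - K) := by ring
  rw [e, lam_mul (pow_ne_zero 3 hj.ne') (hK.g_ne_zero m), lam_cube hj.ne'] at h1
  have h2 : lam j * lam j = 1 := lam_sq j
  rw [← h1]
  linear_combination (-(lam (m ^ 3 - K))) * h2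

theorem cubefree {a b : ℕ} (ha : Squarefree a) (hb : Squarefree b) (hab : a.Coprime b) {u : ℕ}
    (h : u ^ 3 ∣ a ^ 2 * b) : u = 1 := by
  by_contra hu
  obtain ⟨p, hp, hpu⟩ := Nat.exists_prime_and_dvd hu
  have h3 : p ^ 3 ∣ a ^ 2 * b := (pow_dvd_pow_of_dvd hpu 3).trans h
  by_cases hpa : p ∣ a
  · have hpb : ¬ p ∣ b := fun hpb => hp.one_lt.ne' (Nat.eq_one_of_dvd_coprimes hab hpa hpb)
    have hc : (p ^ 3).Coprime b := Nat.Coprime.pow_left 3 ((Nat.Prime.coprime_iff_not_dvd hp).2 hpb)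
    have h4 : p ^ 3 ∣ a ^ 2 := hc.dvd_of_dvd_mul_right h3
    obtain ⟨c, hc⟩ := hpa
    rw [hc] at h4
    have h5 : p ∣ c ^ 2 := by
      have h51 : p ^ 2 * p ∣ p ^ 2 * c ^ 2 := by
        rw [← pow_succ, ← mul_pow]; exact h4
      exact Nat.dvd_of_mul_dvd_mul_left (pow_pos hp.pos 2) h51
    have h6 : p ∣ c := hp.dvd_of_dvd_pow h5
    have h7 : p * p ∣ a := by rw [hc]; exact Nat.mul_dvd_mul_left p h6
    exact hp.one_lt.ne' (Nat.isUnit_iff.1 (ha p h7))
  · have hc : (p ^ 3).Coprime (a ^ 2) :=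
      Nat.Coprime.pow 3 2 ((Nat.Prime.coprime_iff_not_dvd hp).2 hpa)
    have h4 : p ^ 3 ∣ b := hc.dvd_of_dvd_mul_left h3
    have h5 : p * p ∣ b := (Dvd.intro p (by ring)).trans h4
    exact hp.one_lt.ne' (Nat.isUnit_iff.1 (hb p h5))

theorem decomp (k : ℕ) (hk : 0 < k) : ∃ c a b : ℕ, 0 < c ∧ Squarefree a ∧ Squarefree b ∧
    a.Coprime b ∧ k = c ^ 3 * (a * b ^ 2) := by
  induction k using Nat.strong_induction_on with
  | _ k ih =>
    by_cases h : ∃ p : ℕ, p.Prime ∧ p ^ 3 ∣ k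
    · obtain ⟨p, hp, k', hk'⟩ := h
      have hk0 : 0 < k' := by
        rcases Nat.eq_zero_or_pos k' with h0 | h0
        · rw [h0, mul_zero] at hk'; omega
        · exact h0
      have hlt : k' < k := by
        rw [hk']
        have : 1 < p ^ 3 := Nat.one_lt_pow (by norm_num) hp.one_lt
        nlinarith
      obtain ⟨c, a, b, hc, ha, hb, hab, he⟩ := ih k' hlt hk0
      exact ⟨p * c, a, b, Nat.mul_pos hp.pos hc, ha, hb, hab, by rw [hk', he]; ring⟩
    · push Not at h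
      obtain ⟨r, s, hrs, hr⟩ := Nat.sq_mul_squarefree k
      refine ⟨1, r, s, one_pos, hr, ?_, ?_, by rw [← hrs]; ring⟩
      · rw [Nat.squarefree_iff_prime_squarefree]
        intro p hp hps
        obtain ⟨t, ht⟩ := hps
        exact h p hp ⟨p * t ^ 2 * r, by rw [← hrs, ht]; ring⟩
      · by_contra hcop
        obtain ⟨p, hp, hpr, hps⟩ := Nat.Prime.not_coprime_iff_dvd.1 hcop
        obtain ⟨t, ht⟩ := hpr
        obtain ⟨q, hq⟩ := hps
        exact h p hp ⟨q ^ 2 * t, by rw [← hrs, ht, hq]; ring⟩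

theorem class_rep {K L u v : ℕ} (hu : 0 < u) (hL : 0 < L) (hK : ∀ w : ℕ, w ^ 3 ∣ K → w = 1)
    (h : u ^ 3 * L = v ^ 3 * K) : ∃ j : ℕ, 0 < j ∧ L = j ^ 3 * K := by
  obtain ⟨u', v', hco, hu', hv'⟩ := Nat.exists_coprime u v
  have hg : 0 < Nat.gcd u v := Nat.gcd_pos_of_pos_left _ hu
  have h1 : u' ^ 3 * L = v' ^ 3 * K := by
    apply Nat.eq_of_mul_eq_mul_left (pow_pos hg 3)
    calc Nat.gcd u v ^ 3 * (u' ^ 3 * L) = (u' * Nat.gcd u v) ^ 3 * L := by ring
      _ = (v' * Nat.gcd u v) ^ 3 * K := by rw [← hu', ← hv', h]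
      _ = _ := by ring
  have h2 : u' ^ 3 ∣ K := (Nat.Coprime.pow 3 3 hco).dvd_of_dvd_mul_left ⟨L, h1.symm⟩
  have h3 := hK u' h2
  rw [h3, one_pow, one_mul] at h1
  refine ⟨v', ?_, h1⟩
  rcases Nat.eq_zero_or_pos v' with h0 | h0
  · rw [h0] at h1; norm_num at h1; omega
  · exact h0

/-- `a^2 b` is not a cube -/
theorem nc_rep {a b : ℕ} (ha : Squarefree a) (hb : Squarefree b) (hab : a.Coprime b)
    (h : a * b ≠ 1) : NC ((a : ℤ) ^ 2 * b) := by
  intro t ht
  have h1 : a ^ 2 * b = t.natAbs ^ 3 := by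
    have := congrArg Int.natAbs ht
    rwa [Int.natAbs_mul, Int.natAbs_pow, Int.natAbs_natCast, Int.natAbs_natCast,
      Int.natAbs_pow] at this
  have h2 := cubefree ha hb hab (u := t.natAbs) (by rw [h1])
  rw [h2, one_pow] at h1
  have h3 := Nat.eq_one_of_mul_eq_one_left h1
  have h4 : a ^ 2 = 1 := by rw [h3, mul_one] at h1; exact h1
  have h5 : a = 1 := by
    rcases Nat.pow_eq_one.1 h4 with h5 | h5
    · exact h5
    · omega
  exact h (by rw [h5, h3])

theorem nc_rep' {a b : ℕ} (ha : Squarefree a) (hb : Squarefree b) (hab : a.Coprime b)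
    (h : a * b ≠ 1) : NC ((a : ℤ) * b ^ 2) := by
  have := nc_rep hb ha hab.symm (by rwa [mul_comm])
  rwa [mul_comm]

/-- the relation of the tails, for natural numbers -/
theorem tails_nat {a b l h : ℕ} {η η' : ℤ} (ha : Squarefree a) (hb : Squarefree b)
    (hab : a.Coprime b) (h1 : a * b ≠ 1) (hlh : a = l * h) (hlt : l < b * h ^ 2) (hbl : b * l ≠ 1)
    (t1 : Tl ((a : ℤ) * b ^ 2) η) (t2 : Tl ((a : ℤ) ^ 2 * b) η') : η * η' = lam (h : ℤ) := by
  have ha0 := Nat.pos_of_ne_zero ha.ne_zero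
  have hb0 := Nat.pos_of_ne_zero hb.ne_zero
  have hl0 : 0 < l := by
    rcases Nat.eq_zero_or_pos l with h0 | h0
    · rw [hlh, h0, zero_mul] at ha0; omega
    · exact h0
  have hh0 : 0 < h := by
    rcases Nat.eq_zero_or_pos h with h0 | h0
    · rw [hlh, h0, mul_zero] at ha0; omega
    · exact h0
  have hla : l ∣ a := ⟨h, hlh⟩
  have hbls : Squarefree (b * l) :=
    Nat.squarefree_mul_iff.2 ⟨(hab.coprime_dvd_left hla).symm, hb, ha.squarefree_of_dvd hla⟩
  have hsq : ¬ IsSquare ((b : ℤ) * l) := by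
    rintro ⟨t, ht⟩
    have h2 : b * l = t.natAbs * t.natAbs := by
      have := congrArg Int.natAbs ht
      rwa [Int.natAbs_mul, Int.natAbs_mul, Int.natAbs_natCast, Int.natAbs_natCast] at this
    have h3 := Nat.isUnit_iff.1 (hbls t.natAbs ⟨1, by rw [h2, mul_one]⟩)
    rw [h3] at h2
    exact hbl h2
  have e1 : (a : ℤ) * b ^ 2 = l * h * b ^ 2 := by rw [hlh]; push_cast; ring
  have e2 : (a : ℤ) ^ 2 * b = l ^ 2 * h ^ 2 * b := by rw [hlh]; push_cast; ring
  have n1 := nc_rep' ha hb hab h1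
  have n2 := nc_rep ha hb hab h1
  rw [e1] at t1 n1
  rw [e2] at t2 n2
  exact tails_mul (by exact_mod_cast hb0) (by exact_mod_cast hl0) (by exact_mod_cast hh0)
    (by exact_mod_cast hlt) hsq n1 n2 t1 t2

theorem lam_nat_mul {x y : ℕ} (hx : x ≠ 0) (hy : y ≠ 0) :
    lam ((x * y : ℕ) : ℤ) = lam (x : ℤ) * lam (y : ℤ) := by
  push_cast
  exact lam_mul (by exact_mod_cast hx) (by exact_mod_cast hy)

theorem base_lt {a b : ℕ} (ha : Squarefree a) (hb : Squarefree b) (hab : a.Coprime b)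
    (h1 : 1 < a) (h2 : a < b) {η η' : ℤ} (t1 : Tl ((a : ℤ) * b ^ 2) η)
    (t2 : Tl ((a : ℤ) ^ 2 * b) η') : False := by
  have hb1 : 1 < b := h1.trans h2
  have hab1 : a * b ≠ 1 := by
    intro h0
    have := Nat.eq_one_of_mul_eq_one_right h0
    omega
  have v1 := tails_nat (l := 1) (h := a) ha hb hab hab1 (by ring) (by
    have : 0 < a ^ 2 := by positivity
    nlinarith) (by omega) t1 t2
  have hp := Nat.minFac_prime h1.ne'
  obtain ⟨c, hc⟩ := Nat.minFac_dvd a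
  have hc0 : c ≠ 0 := by
    rintro rfl; omega
  have hpa : a.minFac ≤ a := Nat.minFac_le (by omega)
  have v2 := tails_nat (l := a.minFac) (h := c) ha hb hab hab1 hc (by
    have : 1 ≤ c ^ 2 := Nat.one_le_iff_ne_zero.2 (pow_ne_zero 2 hc0)
    nlinarith) (by
      intro h0
      have := Nat.eq_one_of_mul_eq_one_right h0
      omega) t1 t2
  have h3 : lam (a : ℤ) = lam (a.minFac : ℤ) * lam (c : ℤ) := by
    rw [← lam_nat_mul hp.ne_zero hc0, ← hc]
  rw [h3, lam_prime hp, v2] at v1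
  rcases lam_cases (c : ℤ) with h4 | h4 <;> rw [h4] at v1 <;> norm_num at v1

theorem base_one {a : ℕ} (ha : Squarefree a) (h1 : 1 < a) {η η' : ℤ} (t1 : Tl (a : ℤ) η)
    (t2 : Tl ((a : ℤ) ^ 2) η') : (a.Prime ∧ a ≠ 2) ∧ ∀ β : ℤ, ¬ Tl 2 β := by
  have hc1 : a.Coprime 1 := Nat.coprime_one_right a
  have hne : a * 1 ≠ 1 := by omega
  have t1' : Tl ((a : ℤ) * ((1 : ℕ) : ℤ) ^ 2) η := by simpa using t1
  have t2' : Tl ((a : ℤ) ^ 2 * ((1 : ℕ) : ℤ)) η' := by simpa using t2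
  -- the swapped relation
  have v1 : η' * η = 1 := by
    have := tails_nat (a := 1) (b := a) (l := 1) (h := 1) squarefree_one ha hc1.symm (by omega)
      (by ring) (by omega) (by omega) (η := η') (η' := η) (by simpa using t2) (by simpa using t1)
    rw [this]; simp [lam]
  have rel : ∀ l h : ℕ, a = l * h → l < h ^ 2 → l ≠ 1 → lam (h : ℤ) = 1 := by
    intro l h e1 e2 e3
    have := tails_nat (l := l) (h := h) ha squarefree_one hc1 hne e1 (by rwa [one_mul])
      (by rwa [one_mul]) t1' t2'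
    rw [← this]; linear_combination v1
  have hp := Nat.minFac_prime h1.ne'
  obtain ⟨c, hc⟩ := Nat.minFac_dvd a
  have hc0 : c ≠ 0 := by
    rintro rfl; omega
  have h3 : lam (a : ℤ) = lam (a.minFac : ℤ) * lam (c : ℤ) := by
    rw [← lam_nat_mul hp.ne_zero hc0, ← hc]
  rw [lam_prime hp] at h3
  -- prime factors of `c` are larger
  have hsf : Squarefree (a.minFac * c) := by rw [← hc]; exact ha
  obtain ⟨hcop, _, hcs⟩ := Nat.squarefree_mul_iff.1 hsf
  have big : ∀ {x : ℕ}, x ≠ 1 → x ∣ c → a.minFac < x := by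
    intro x hx hxc
    have hq := Nat.minFac_prime hx
    have h4 : x.minFac ∣ a := ((Nat.minFac_dvd x).trans hxc).trans (Dvd.intro_left _ hc.symm)
    have h5 := Nat.minFac_le_of_dvd hq.two_le h4
    have hx0 : 0 < x := Nat.pos_of_dvd_of_pos hxc (Nat.pos_of_ne_zero hc0)
    have h6 : x.minFac ≤ x := Nat.minFac_le hx0
    have h7 : a.minFac ≠ x.minFac := by
      intro h8
      have h9 : a.minFac ∣ c := by rw [h8]; exact (Nat.minFac_dvd x).trans hxc
      exact (Nat.Prime.coprime_iff_not_dvd hp).1 hcop h9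
    omega
  by_cases hprime : a.Prime
  · have hNC1 : NC (a : ℤ) := by
      have := nc_rep' ha squarefree_one hc1 hne
      simpa using this
    have hNC2 : NC ((a : ℤ) ^ 2) := by
      have := nc_rep ha squarefree_one hc1 hne
      simpa using this
    have ha0 : (0 : ℤ) < a := by exact_mod_cast (by omega : 0 < a)
    have la := lam_prime hprime
    have w1 : ∀ β : ℤ, Tl 2 β → η * β = -1 := by
      intro β hβ
      rw [tails_two hNC1 hNC2 ha0 (by positivity) (by ring) t1 t2 hβ, la]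
    have w2 : ∀ β : ℤ, Tl 2 β → η' * β = 1 := by
      intro β hβ
      rw [tails_two hNC2 hNC1 ha0 ha0 (by ring) t2 t1 hβ, pow_two]
      rw [lam_mul ha0.ne' ha0.ne', la]; norm_num
    have no : ∀ β : ℤ, ¬ Tl 2 β := by
      intro β hβ
      have x1 := w1 β hβ
      have x2 := w2 β hβ
      have x3 := hβ.sq
      have x4 : (η' * η) * (β * β) = -1 := by
        calc (η' * η) * (β * β) = (η' * β) * (η * β) := by ring
          _ = -1 := by rw [x1, x2]; norm_num
      rw [v1, x3] at x4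
      norm_num at x4
    refine ⟨⟨hprime, ?_⟩, no⟩
    rintro rfl
    exact no η (by exact_mod_cast t1)
  · exfalso
    have hc2 : c ≠ 1 := by
      rintro rfl
      rw [mul_one] at hc
      exact hprime (by rw [hc]; exact hp)
    rcases lam_cases (c : ℤ) with h4 | h4
    · -- `lam a = -1`
      have hq := Nat.minFac_prime hc2
      obtain ⟨d, hd⟩ := Nat.minFac_dvd c
      have hd0 : d ≠ 0 := by
        intro h0
        rw [h0, mul_zero] at hd
        exact hc0 hd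
      have h5 : lam (c : ℤ) = lam (c.minFac : ℤ) * lam (d : ℤ) := by
        rw [← lam_nat_mul hq.ne_zero hd0, ← hd]
      rw [lam_prime hq, h4] at h5
      have h6 : lam (d : ℤ) = -1 := by linarith
      have hd1 : d ≠ 1 := by
        rintro rfl
        simp [lam] at h6
      have hsf2 : Squarefree (c.minFac * d) := by rw [← hd]; exact hcs
      obtain ⟨hcop2, _, _⟩ := Nat.squarefree_mul_iff.1 hsf2
      have h7 : c.minFac < d := by
        have hr := Nat.minFac_prime hd1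
        have h8 : d.minFac ∣ c := (Nat.minFac_dvd d).trans (Dvd.intro_left _ hd.symm)
        have h9 := Nat.minFac_le_of_dvd hr.two_le h8
        have h10 : d.minFac ≤ d := Nat.minFac_le (Nat.pos_of_ne_zero hd0)
        have h11 : c.minFac ≠ d.minFac := by
          intro h12
          have h13 : c.minFac ∣ d := by rw [h12]; exact Nat.minFac_dvd d
          exact (Nat.Prime.coprime_iff_not_dvd hq).1 hcop2 h13
        omega
      have h8 : a.minFac < d := big hd1 (Dvd.intro_left _ hd.symm)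
      have := rel (a.minFac * c.minFac) d (by rw [mul_assoc, ← hd, ← hc]) (by
        rw [pow_two]; exact Nat.mul_lt_mul'' h8 h7) (by
          intro h0
          exact hp.one_lt.ne' (Nat.eq_one_of_mul_eq_one_right h0))
      rw [h6] at this
      norm_num at this
    · have := rel a.minFac c hc (by
        have := big hc2 dvd_rfl
        nlinarith) hp.one_lt.ne'
      rw [h4] at this
      norm_num at this

theorem base {a b : ℕ} (ha : Squarefree a) (hb : Squarefree b) (hab : a.Coprime b)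
    (h1 : a * b ≠ 1) {η η' : ℤ} (t1 : Tl ((a : ℤ) * b ^ 2) η) (t2 : Tl ((a : ℤ) ^ 2 * b) η') :
    (∃ p : ℕ, p.Prime ∧ p ≠ 2 ∧ (a = p ∧ b = 1 ∨ a = 1 ∧ b = p)) ∧ ∀ β : ℤ, ¬ Tl 2 β := by
  have ha0 := Nat.pos_of_ne_zero ha.ne_zero
  have hb0 := Nat.pos_of_ne_zero hb.ne_zero
  rcases Nat.lt_or_ge 1 a with h2 | h2
  · rcases Nat.lt_or_ge 1 b with h3 | h3
    · exfalso
      rcases Nat.lt_trichotomy a b with h4 | h4 | h4
      · exact base_lt ha hb hab h2 h4 t1 t2
      · rw [h4] at hab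
        have := (Nat.coprime_self b).1 hab
        omega
      · refine base_lt hb ha hab.symm h3 h4 (η := η') (η' := η) ?_ ?_
        · rw [mul_comm]; exact t2
        · rw [mul_comm]; exact t1
    · have hb1 : b = 1 := by omega
      subst hb1
      obtain ⟨⟨h4, h5⟩, h6⟩ := base_one ha h2 (η := η) (η' := η') (by simpa using t1)
        (by simpa using t2)
      exact ⟨⟨a, h4, h5, Or.inl ⟨rfl, rfl⟩⟩, h6⟩
  · have ha1 : a = 1 := by omega
    subst ha1
    have h3 : 1 < b := by omega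
    obtain ⟨⟨h4, h5⟩, h6⟩ := base_one hb h3 (η := η') (η' := η) (by simpa using t2)
      (by simpa using t1)
    exact ⟨⟨b, h4, h5, Or.inr ⟨rfl, rfl⟩⟩, h6⟩

/-- from a rational cube relation between positive integers to natural numbers -/
theorem class_int {K : ℕ} {L x y : ℤ} (hx : x ≠ 0) (hL : 0 < L)
    (hK : ∀ w : ℕ, w ^ 3 ∣ K → w = 1) (h : x ^ 3 * L = y ^ 3 * K) :
    ∃ j : ℕ, 0 < j ∧ L = (j : ℤ) ^ 3 * K := by
  have h1 : x.natAbs ^ 3 * L.natAbs = y.natAbs ^ 3 * K := by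
    have := congrArg Int.natAbs h
    rwa [Int.natAbs_mul, Int.natAbs_mul, Int.natAbs_pow, Int.natAbs_pow,
      Int.natAbs_natCast] at this
  obtain ⟨j, hj, he⟩ := class_rep (Int.natAbs_pos.2 hx) (Int.natAbs_pos.2 hL.ne') hK h1
  refine ⟨j, hj, ?_⟩
  have h2 : (L.natAbs : ℤ) = L := Int.natAbs_of_nonneg hL.le
  rw [← h2, he]; push_cast; rfl

/-- not good: the tail is constant -/
theorem tl_of_not_good {L : ℤ} (h : ¬ GoodN (-L)) : ∃ η : ℤ, Tl L η := by
  obtain ⟨ε, B, hB⟩ := not_goodN h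
  exact ⟨ε, B, fun m hm => by rw [← hB m hm]; congr 1⟩

/-- `CC` is symmetric -/
theorem CC.symm {k k' : ℤ} (h : CC k k') : CC k' k := by
  obtain ⟨a, b, ha, hb, h⟩ := h
  exact ⟨b, a, hb, ha, h.symm⟩

theorem neg_classes {k : ℤ} (hk : NC k) :
    (∀ L : ℤ, 0 < L → CC k L → GoodN (-L)) ∨
    (∀ L : ℤ, 0 < L → CC (k ^ 2) L → GoodN (-L)) ∨
    ((∃ p : ℕ, p.Prime ∧ p ≠ 2 ∧ (CC p k ∨ CC (p ^ 2) k)) ∧
      ∀ L : ℤ, 0 < L → CC 2 L → GoodN (-L)) := by
  by_contra hcon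
  rw [not_or, not_or] at hcon
  obtain ⟨g1, g2, g3⟩ := hcon
  push Not at g1 g2
  obtain ⟨L1, hL1, ⟨x, y, hx, hy, hxy⟩, b1⟩ := g1
  obtain ⟨L2, hL2, ⟨u, v, hu, hv, huv⟩, b2⟩ := g2
  obtain ⟨η₁, s1⟩ := tl_of_not_good b1
  obtain ⟨η₂, s2⟩ := tl_of_not_good b2
  have hk0 := hk.ne_zero
  -- decomposition of `L1`
  obtain ⟨c, a, b, hc, ha, hb, hab, he⟩ := decomp L1.toNat (by omega)
  have hL1' : L1 = (c : ℤ) ^ 3 * ((a : ℤ) * b ^ 2) := by
    have : (L1.toNat : ℤ) = L1 := Int.toNat_of_nonneg hL1.le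
    rw [← this, he]; push_cast; rfl
  have hab1 : a * b ≠ 1 := by
    intro h0
    have h1 := Nat.eq_one_of_mul_eq_one_right h0
    have h2 := Nat.eq_one_of_mul_eq_one_left h0
    rw [h1, h2] at hL1'
    have h3 : L1 = (c : ℤ) ^ 3 := by rw [hL1']; push_cast; ring
    have h4 : x ^ 3 ∣ (y * c) ^ 3 := ⟨k, by rw [hxy, h3]; ring⟩
    obtain ⟨w, hw⟩ := (Int.pow_dvd_pow_iff three_ne_zero).1 h4
    apply hk w
    apply mul_left_cancel₀ (pow_ne_zero 3 hx)
    rw [hxy, h3]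
    calc y ^ 3 * (c : ℤ) ^ 3 = (y * c) ^ 3 := by ring
      _ = _ := by rw [hw]; ring
  have n1 := nc_rep' ha hb hab hab1
  have n2 := nc_rep ha hb hab hab1
  have hc' : (0 : ℤ) < c := by exact_mod_cast hc
  rw [hL1'] at s1
  have t1 := s1.scale hc' n1
  -- `L2`
  have hb0 : (b : ℤ) ≠ 0 := by exact_mod_cast hb.ne_zero
  have r2 : (x ^ 2 * v) ^ 3 * L2 = (y ^ 2 * c ^ 2 * b * u) ^ 3 * ((a ^ 2 * b : ℕ) : ℤ) := by
    have e1 : (x ^ 3 * k) ^ 2 = (y ^ 3 * ((c : ℤ) ^ 3 * ((a : ℤ) * b ^ 2))) ^ 2 := by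
      rw [hxy, hL1']
    calc (x ^ 2 * v) ^ 3 * L2 = (x ^ 3) ^ 2 * (v ^ 3 * L2) := by ring
      _ = (x ^ 3) ^ 2 * (u ^ 3 * k ^ 2) := by rw [← huv]
      _ = (x ^ 3 * k) ^ 2 * u ^ 3 := by ring
      _ = (y ^ 3 * ((c : ℤ) ^ 3 * ((a : ℤ) * b ^ 2))) ^ 2 * u ^ 3 := by rw [e1]
      _ = _ := by push_cast; ring
  obtain ⟨j, hj, hj2⟩ := class_int (mul_ne_zero (pow_ne_zero 2 hx) hv) hL2
    (fun w hw => cubefree ha hb hab hw) r2
  have hj' : (0 : ℤ) < j := by exact_mod_cast hj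
  push_cast at hj2
  rw [hj2] at s2
  have t2 := s2.scale hj' n2
  obtain ⟨⟨p, hp, hp2, hcase⟩, no2⟩ := base ha hb hab hab1 t1 t2
  apply g3
  have hyc : y * (c : ℤ) ≠ 0 := mul_ne_zero hy hc'.ne'
  refine ⟨⟨p, hp, hp2, ?_⟩, ?_⟩
  · rcases hcase with ⟨h1, h2⟩ | ⟨h1, h2⟩
    · left
      refine ⟨y * c, x, hyc, hx, ?_⟩
      rw [hxy, hL1', h1, h2]; push_cast; ring
    · right
      refine ⟨y * c, x, hyc, hx, ?_⟩
      rw [hxy, hL1', h1, h2]; push_cast; ring
  · intro L3 hL3 hC3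
    by_contra b3
    obtain ⟨η₃, s3⟩ := tl_of_not_good b3
    obtain ⟨z, w, hz, hw, hzw⟩ := hC3
    obtain ⟨i, hi, hi2⟩ := class_int (K := 2) (L := L3) (x := w) (y := z) hw hL3
      (fun w' hw' => cubefree (a := 1) (b := 2) squarefree_one Nat.prime_two.squarefree
        (Nat.coprime_one_left 2) (by simpa using hw')) (by rw [← hzw]; push_cast; rfl)
    have hi' : (0 : ℤ) < i := by exact_mod_cast hi
    push_cast at hi2
    rw [hi2] at s3
    exact no2 _ (s3.scale hi' nc_two)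

end Pool.Agent.H26.PT
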